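import Pool.Agent.V7H68.Kak.Param

/-!
# Almost all directions have slow returns
-/

set_option autoImplicit false

namespace Pool.Agent.V7H68.Kak

open MeasureTheory Set Filter Topology
open scoped ENNReal

/-- The direction `(1, β)`. -/
noncomputable def dir {d : ℕ} (β : Fin d → ℝ) : E (d + 1) := WithLp.toLp 2 (Fin.cons 1 β)

theorem volume_A1 {σ : ℝ} (hσ : 0 < σ) (N : ℕ) {q : ℕ} (hq : 1 ≤ q) :
    volume {x : ℝ | |x| ≤ N ∧ ∃ p : ℤ, |q * x - p| < (q : ℝ) ^ (-σ)} ≤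
      ENNReal.ofReal ((4 * N + 6) * (q : ℝ) ^ (-σ)) := by
  have hq0 : (0 : ℝ) < q := by exact_mod_cast (by omega : 0 < q)
  have hq1 : (1 : ℝ) ≤ q := by exact_mod_cast hq
  set η : ℝ := (q : ℝ) ^ (-σ) with hη
  have hη0 : 0 < η := by positivity
  have hη1 : η ≤ 1 := Real.rpow_le_one_of_one_le_of_nonpos hq1 (by linarith)
  set J : Finset ℤ := Finset.Icc (-(q * N + 1 : ℤ)) (q * N + 1) with hJ
  have hsub : {x : ℝ | |x| ≤ N ∧ ∃ p : ℤ, |q * x - p| < η} ⊆
      ⋃ p ∈ J, Ioo (((p : ℝ) - η) / q) (((p : ℝ) + η) / q) := by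
    rintro x ⟨hx, p, hp⟩
    rw [abs_lt] at hp
    rw [abs_le] at hx
    simp only [mem_iUnion, exists_prop]
    refine ⟨p, ?_, ?_⟩
    · rw [hJ, Finset.mem_Icc]
      have h1 : (p : ℝ) < q * N + 2 := by nlinarith
      have h2 : -((q : ℝ) * N + 2) < p := by nlinarith
      have h3 : p < q * N + 2 := by exact_mod_cast h1
      have h4 : -((q : ℤ) * N + 2) < p := by exact_mod_cast h2
      constructor <;> omega
    · rw [mem_Ioo, div_lt_iff₀ hq0, lt_div_iff₀ hq0]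
      constructor <;> linarith [hp.1, hp.2, mul_comm x (q : ℝ)]
  calc volume {x : ℝ | |x| ≤ N ∧ ∃ p : ℤ, |q * x - p| < η}
      ≤ volume (⋃ p ∈ J, Ioo (((p : ℝ) - η) / q) (((p : ℝ) + η) / q)) := measure_mono hsub
    _ ≤ ∑ p ∈ J, volume (Ioo (((p : ℝ) - η) / q) (((p : ℝ) + η) / q)) :=
        measure_biUnion_finset_le _ _
    _ = ∑ p ∈ J, ENNReal.ofReal (2 * η / q) := by
        apply Finset.sum_congr rfl
        intro p _
        rw [Real.volume_Ioo]
        congr 1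
        field_simp
        ring
    _ = ENNReal.ofReal (J.card * (2 * η / q)) := by
        rw [Finset.sum_const, nsmul_eq_mul, ENNReal.ofReal_mul (p := (J.card : ℝ)) (Nat.cast_nonneg _),
          ENNReal.ofReal_natCast]
    _ ≤ ENNReal.ofReal ((4 * N + 6) * η) := by
        apply ENNReal.ofReal_le_ofReal
        have hc : (J.card : ℝ) = 2 * (q * N) + 3 := by
          rw [hJ, Int.card_Icc]
          have : ((q * N + 1 : ℤ) + 1 - (-(q * N + 1 : ℤ))) = ((2 * (q * N) + 3 : ℕ) : ℤ) := by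
            push_cast; ring
          rw [this, Int.toNat_natCast]
          push_cast
          ring
        rw [hc]
        rw [mul_div_assoc', div_le_iff₀ hq0]
        nlinarith [mul_pos hη0 hq0]

theorem ae_finite {d : ℕ} {σ : ℝ} (hσ : 0 < σ) (hσd : 1 < σ * d) (N : ℕ) :
    volume {β : Fin d → ℝ | ∃ᶠ q : ℕ in atTop, 1 ≤ q ∧
      ∀ j, |β j| ≤ N ∧ ∃ p : ℤ, |q * β j - p| < (q : ℝ) ^ (-σ)} = 0 := by
  apply measure_setOfPred_frequently_eq_zero
  have hbound : ∀ q : ℕ, volume {β : Fin d → ℝ | 1 ≤ q ∧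
      ∀ j, |β j| ≤ N ∧ ∃ p : ℤ, |q * β j - p| < (q : ℝ) ^ (-σ)} ≤
      ENNReal.ofReal ((4 * N + 6) ^ d * (q : ℝ) ^ (-(σ * d))) := by
    intro q
    rcases Nat.eq_zero_or_pos q with rfl | hq
    · simp
    · have h1 : {β : Fin d → ℝ | 1 ≤ q ∧ ∀ j, |β j| ≤ N ∧ ∃ p : ℤ, |q * β j - p| < (q : ℝ) ^ (-σ)} =
          Set.pi univ fun _ : Fin d => {x : ℝ | |x| ≤ N ∧ ∃ p : ℤ, |q * x - p| < (q : ℝ) ^ (-σ)} := by
        ext β
        simp only [mem_ofPred_eq, Set.mem_pi, mem_univ, forall_const]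
        exact ⟨fun h => h.2, fun h => ⟨hq, h⟩⟩
      rw [h1, volume_pi, Measure.pi_pi]
      simp only [Finset.prod_const, Finset.card_univ, Fintype.card_fin]
      calc _ ≤ (ENNReal.ofReal ((4 * N + 6) * (q : ℝ) ^ (-σ))) ^ d :=
            pow_le_pow_left' (volume_A1 hσ N hq) d
        _ = ENNReal.ofReal ((4 * N + 6) ^ d * (q : ℝ) ^ (-(σ * d))) := by
            rw [← ENNReal.ofReal_pow (by positivity), mul_pow]
            congr 2
            rw [← Real.rpow_natCast, ← Real.rpow_mul (Nat.cast_nonneg q)]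
            congr 1
            ring
  have hs : Summable fun q : ℕ => (4 * (N : ℝ) + 6) ^ d * (q : ℝ) ^ (-(σ * d)) := by
    apply Summable.mul_left
    rw [Real.summable_nat_rpow]
    linarith
  refine ne_top_of_le_ne_top ?_ (ENNReal.tsum_le_tsum hbound)
  rw [← ENNReal.ofReal_tsum_of_nonneg (fun q => by positivity) hs]
  exact ENNReal.ofReal_ne_top

theorem ae_irrational {d : ℕ} (j : Fin d) : ∀ᵐ β : Fin d → ℝ, Irrational (β j) := by
  have h1 : ∀ᵐ x : ℝ, Irrational x := (Set.countable_range ((↑) : ℚ → ℝ)).ae_notMem volume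
  exact (Measure.quasiMeasurePreserving_eval (fun _ : Fin d => (volume : Measure ℝ)) j).ae h1

/-- A lower bound for simultaneous approximation for almost every point. -/
theorem ae_simul {d : ℕ} (hd : 1 ≤ d) {σ : ℝ} (hσ : 0 < σ) (hσd : 1 < σ * d) :
    ∀ᵐ β : Fin d → ℝ, ∃ c : ℝ, 0 < c ∧ ∀ q : ℕ, 1 ≤ q → ∃ j, ∀ p : ℤ,
      c * (q : ℝ) ^ (-σ) ≤ |q * β j - p| := by
  have h1 : ∀ᵐ β : Fin d → ℝ, ∀ N : ℕ, ¬ ∃ᶠ q : ℕ in atTop, 1 ≤ q ∧
      ∀ j, |β j| ≤ N ∧ ∃ p : ℤ, |q * β j - p| < (q : ℝ) ^ (-σ) := by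
    rw [ae_all_iff]
    intro N
    rw [ae_iff]
    simp only [not_not]
    exact ae_finite hσ hσd N
  filter_upwards [h1, ae_irrational (⟨0, hd⟩ : Fin d)] with β hβ hirr
  obtain ⟨N, hN⟩ := exists_nat_ge (∑ j, |β j|)
  have hNj : ∀ j, |β j| ≤ N := fun j =>
    (Finset.single_le_sum (f := fun j => |β j|) (fun _ _ => abs_nonneg _) (Finset.mem_univ j)).trans hN
  have h2 := hβ N
  rw [not_frequently, eventually_atTop] at h2
  obtain ⟨Q, hQ⟩ := h2
  set j₀ : Fin d := ⟨0, hd⟩ with hj0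
  have hpos : ∀ q : ℕ, 1 ≤ q → 0 < |q * β j₀ - round (q * β j₀)| := by
    intro q hq
    rw [abs_pos, sub_ne_zero]
    have : Irrational (q * β j₀) := hirr.natCast_mul (by omega)
    exact this.ne_int _
  have hc : ∃ c : ℝ, 0 < c ∧ c ≤ 1 ∧ ∀ q ∈ Finset.Icc 1 Q, c ≤ |q * β j₀ - round (q * β j₀)| := by
    have : ∀ S : Finset ℕ, (∀ q ∈ S, 1 ≤ q) →
        ∃ c : ℝ, 0 < c ∧ c ≤ 1 ∧ ∀ q ∈ S, c ≤ |q * β j₀ - round (q * β j₀)| := by
      intro S
      induction S using Finset.induction_on with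
      | empty => exact fun _ => ⟨1, one_pos, le_rfl, by simp⟩
      | insert a S _ ih =>
        intro hS
        obtain ⟨c, h0, h1, h2⟩ := ih fun q hq => hS q (Finset.mem_insert_of_mem hq)
        refine ⟨min c |a * β j₀ - round (a * β j₀)|, lt_min h0 (hpos a (hS a (Finset.mem_insert_self _ _))),
          (min_le_left _ _).trans h1, ?_⟩
        intro q hq
        rcases Finset.mem_insert.1 hq with rfl | hq
        · exact min_le_right _ _
        · exact (min_le_left _ _).trans (h2 q hq)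
    exact this _ fun q hq => (Finset.mem_Icc.1 hq).1
  obtain ⟨c, hc0, hc1, hcq⟩ := hc
  refine ⟨c, hc0, ?_⟩
  intro q hq
  have hq1 : (1 : ℝ) ≤ q := by exact_mod_cast hq
  have hpow : (q : ℝ) ^ (-σ) ≤ 1 := Real.rpow_le_one_of_one_le_of_nonpos hq1 (by linarith)
  have hpow0 : 0 ≤ (q : ℝ) ^ (-σ) := by positivity
  rcases le_total q Q with hqQ | hqQ
  · refine ⟨j₀, fun p => ?_⟩
    calc c * (q : ℝ) ^ (-σ) ≤ c * 1 := mul_le_mul_of_nonneg_left hpow hc0.le
      _ = c := mul_one c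
      _ ≤ |q * β j₀ - round (q * β j₀)| := hcq q (Finset.mem_Icc.2 ⟨hq, hqQ⟩)
      _ ≤ |q * β j₀ - p| := round_le _ _
  · have h3 := hQ q hqQ
    push Not at h3
    obtain ⟨j, hj⟩ := h3 hq
    refine ⟨j, fun p => ?_⟩
    calc c * (q : ℝ) ^ (-σ) ≤ 1 * (q : ℝ) ^ (-σ) := mul_le_mul_of_nonneg_right hc1 hpow0
      _ = (q : ℝ) ^ (-σ) := one_mul _
      _ ≤ |q * β j - p| := hj (hNj j) p

theorem slow_of_simul {d : ℕ} (hd : 1 ≤ d) {β : Fin d → ℝ}
    (h : ∀ k : ℕ, ∃ c : ℝ, 0 < c ∧ ∀ q : ℕ, 1 ≤ q → ∃ j, ∀ p : ℤ,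
      c * (q : ℝ) ^ (-(1 / ((d : ℝ) - 1 / (k + 2)))) ≤ |q * β j - p|) : Slow (dir β) := by
  have hd' : (1 : ℝ) ≤ d := by exact_mod_cast hd
  intro ε hε hε1
  obtain ⟨k, hk⟩ := exists_nat_gt (1 / ε)
  set ε' : ℝ := 1 / ((k : ℝ) + 2) with hε'
  have hε'ε : ε' ≤ ε := by
    rw [hε', div_le_iff₀ (by positivity)]
    rw [div_lt_iff₀ hε] at hk
    nlinarith
  have hε'0 : 0 < ε' := by positivity
  set τ : ℝ := (d : ℝ) - ε' with hτ
  have hτ0 : 0 < τ := by rw [hτ]; linarith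
  obtain ⟨c, hc, hcq⟩ := h k
  rw [← hε', ← hτ] at hcq
  set Bb : ℝ := 1 + ∑ j, |β j| with hBb
  have hsum0 : 0 ≤ ∑ j, |β j| := Finset.sum_nonneg fun _ _ => abs_nonneg _
  have hBb1 : 1 ≤ Bb := by linarith
  have hBj : ∀ j, |β j| ≤ Bb - 1 := fun j => by
    have := Finset.single_le_sum (f := fun j => |β j|) (fun _ _ => abs_nonneg _) (Finset.mem_univ j)
    rw [hBb]; simpa using this
  refine ⟨min ((1 / 2) * (c / Bb) ^ τ) ((1 / (2 * Bb)) * (Bb ^ (d : ℝ))⁻¹), by positivity, ?_⟩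
  intro δ hδ hδ2 z hz s hs
  have hexp : (((d + 1 : ℕ) : ℝ) - 1 - ε) = d - ε := by push_cast; ring
  rw [hexp]
  have hδi : 1 ≤ δ⁻¹ := by
    rw [one_le_inv₀ hδ]; linarith
  have h0 : |(z 0 : ℝ) - s| < δ := by
    have := hs 0
    simpa [dir] using this
  have hsj : ∀ j : Fin d, |(z j.succ : ℝ) - s * β j| < δ := by
    intro j
    have := hs j.succ
    simpa [dir] using this
  by_cases hz0 : z 0 = 0
  · -- the first coordinate vanishes
    rw [hz0, Int.cast_zero, zero_sub, abs_neg] at h0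
    obtain ⟨j, hj⟩ : ∃ j : Fin d, z j.succ ≠ 0 := by
      by_contra hcon
      push Not at hcon
      apply hz
      funext i
      refine Fin.cases hz0 (fun j => hcon j) i
    have h1 : (1 : ℝ) ≤ |(z j.succ : ℝ)| := by
      have : (1 : ℤ) ≤ |z j.succ| := Int.one_le_abs hj
      have h2 : ((1 : ℤ) : ℝ) ≤ ((|z j.succ| : ℤ) : ℝ) := by exact_mod_cast this
      simpa using h2
    have h2 : |(z j.succ : ℝ)| < δ + |s| * |β j| := by
      have h3 : (z j.succ : ℝ) = ((z j.succ : ℝ) - s * β j) + s * β j := by ring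
      calc |(z j.succ : ℝ)| = |((z j.succ : ℝ) - s * β j) + s * β j| := by rw [← h3]
        _ ≤ |(z j.succ : ℝ) - s * β j| + |s * β j| := abs_add_le _ _
        _ < δ + |s| * |β j| := by
            rw [abs_mul]
            linarith [hsj j]
    have hB := hBj j
    have hs0 : 0 ≤ |s| := abs_nonneg s
    have hsB : |s| * |β j| ≤ |s| * (Bb - 1) := mul_le_mul_of_nonneg_left hB hs0
    have h4 : δ⁻¹ ≤ Bb := by
      rw [inv_le_comm₀ hδ (by linarith), inv_eq_one_div, div_le_iff₀ (by linarith)]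
      nlinarith
    have h5 : 1 / (2 * Bb) ≤ |s| := by
      rw [div_le_iff₀ (by positivity)]
      nlinarith
    have h6 : (δ⁻¹) ^ ((d : ℝ) - ε) ≤ Bb ^ (d : ℝ) := by
      calc (δ⁻¹) ^ ((d : ℝ) - ε) ≤ (δ⁻¹) ^ (d : ℝ) :=
            Real.rpow_le_rpow_of_exponent_le hδi (by linarith)
        _ ≤ Bb ^ (d : ℝ) := Real.rpow_le_rpow (by positivity) h4 (by positivity)
    calc min ((1 / 2) * (c / Bb) ^ τ) ((1 / (2 * Bb)) * (Bb ^ (d : ℝ))⁻¹) * (δ⁻¹) ^ ((d : ℝ) - ε)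
        ≤ ((1 / (2 * Bb)) * (Bb ^ (d : ℝ))⁻¹) * Bb ^ (d : ℝ) :=
          mul_le_mul (min_le_right _ _) h6 (by positivity) (by positivity)
      _ = 1 / (2 * Bb) := by
          rw [mul_assoc, inv_mul_cancel₀ (by positivity), mul_one]
      _ ≤ |s| := h5
  · -- the first coordinate is at least one
    set q : ℕ := (z 0).natAbs with hq
    have hq1 : 1 ≤ q := by
      rw [hq]
      exact Int.natAbs_pos.2 hz0
    have hqr : (q : ℝ) = |(z 0 : ℝ)| := by
      rw [hq, Nat.cast_natAbs, Int.cast_abs]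
    have hq1' : (1 : ℝ) ≤ q := by exact_mod_cast hq1
    obtain ⟨j, hj⟩ := hcq q hq1
    have h1 : |(z j.succ : ℝ) - z 0 * β j| < δ * Bb := by
      have h3 : (z j.succ : ℝ) - z 0 * β j = ((z j.succ : ℝ) - s * β j) - ((z 0 : ℝ) - s) * β j := by
        ring
      calc |(z j.succ : ℝ) - z 0 * β j| = |((z j.succ : ℝ) - s * β j) - ((z 0 : ℝ) - s) * β j| := by
            rw [h3]
        _ ≤ |(z j.succ : ℝ) - s * β j| + |((z 0 : ℝ) - s) * β j| := abs_sub _ _
        _ < δ + δ * (Bb - 1) := by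
            rw [abs_mul]
            have h4 : |(z 0 : ℝ) - s| * |β j| ≤ δ * (Bb - 1) :=
              mul_le_mul h0.le (hBj j) (abs_nonneg _) hδ.le
            linarith [hsj j]
        _ = δ * Bb := by ring
    have h2 : c * (q : ℝ) ^ (-(1 / τ)) ≤ δ * Bb := by
      rcases lt_or_gt_of_ne hz0 with hneg | hpos
      · have h3 := hj (-(z j.succ))
        have h4 : (q : ℝ) = -(z 0 : ℝ) := by
          rw [hqr, abs_of_neg (by exact_mod_cast hneg)]
        have h5 : |(q : ℝ) * β j - ((-(z j.succ) : ℤ) : ℝ)| = |(z j.succ : ℝ) - z 0 * β j| := by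
          rw [h4]
          congr 1
          push_cast
          ring
        rw [h5] at h3
        exact h3.trans h1.le
      · have h3 := hj (z j.succ)
        have h4 : (q : ℝ) = (z 0 : ℝ) := by
          rw [hqr, abs_of_pos (by exact_mod_cast hpos)]
        have h5 : |(q : ℝ) * β j - ((z j.succ : ℤ) : ℝ)| = |(z j.succ : ℝ) - z 0 * β j| := by
          rw [h4, abs_sub_comm]
        rw [h5] at h3
        exact h3.trans h1.le
    have h3 : (c / Bb) * δ⁻¹ ≤ (q : ℝ) ^ (1 / τ) := by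
      rw [Real.rpow_neg (by positivity)] at h2
      have hqp : 0 < (q : ℝ) ^ (1 / τ) := by positivity
      rw [← div_eq_mul_inv, div_le_iff₀ hqp] at h2
      rw [← div_eq_mul_inv, div_le_iff₀ hδ, div_le_iff₀ (by linarith)]
      linarith
    have h4 : ((c / Bb) * δ⁻¹) ^ τ ≤ q := by
      calc ((c / Bb) * δ⁻¹) ^ τ ≤ ((q : ℝ) ^ (1 / τ)) ^ τ :=
            Real.rpow_le_rpow (by positivity) h3 hτ0.le
        _ = q := by
            rw [← Real.rpow_mul (by positivity), one_div, inv_mul_cancel₀ hτ0.ne', Real.rpow_one]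
    have h5 : (q : ℝ) / 2 ≤ |s| := by
      have h6 : |(z 0 : ℝ)| ≤ |(z 0 : ℝ) - s| + |s| := by
        calc |(z 0 : ℝ)| = |((z 0 : ℝ) - s) + s| := by congr 1; ring
          _ ≤ _ := abs_add_le _ _
      rw [← hqr] at h6
      linarith
    have h6 : (δ⁻¹) ^ ((d : ℝ) - ε) ≤ (δ⁻¹) ^ τ := by
      apply Real.rpow_le_rpow_of_exponent_le hδi
      rw [hτ]; linarith
    calc min ((1 / 2) * (c / Bb) ^ τ) ((1 / (2 * Bb)) * (Bb ^ (d : ℝ))⁻¹) * (δ⁻¹) ^ ((d : ℝ) - ε)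
        ≤ ((1 / 2) * (c / Bb) ^ τ) * (δ⁻¹) ^ τ :=
          mul_le_mul (min_le_left _ _) h6 (by positivity) (by positivity)
      _ = (1 / 2) * ((c / Bb) * δ⁻¹) ^ τ := by
          rw [Real.mul_rpow (by positivity) (by positivity)]; ring
      _ ≤ (1 / 2) * q := mul_le_mul_of_nonneg_left h4 (by norm_num)
      _ ≤ |s| := by linarith

/-- **Almost all directions have slow returns.** -/
theorem ae_slow {d : ℕ} (hd : 1 ≤ d) : ∀ᵐ β : Fin d → ℝ, Slow (dir β) := by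
  have hd' : (1 : ℝ) ≤ d := by exact_mod_cast hd
  have h : ∀ᵐ β : Fin d → ℝ, ∀ k : ℕ, ∃ c : ℝ, 0 < c ∧ ∀ q : ℕ, 1 ≤ q → ∃ j, ∀ p : ℤ,
      c * (q : ℝ) ^ (-(1 / ((d : ℝ) - 1 / (k + 2)))) ≤ |q * β j - p| := by
    rw [ae_all_iff]
    intro k
    have h1 : (0 : ℝ) < 1 / (k + 2) := by positivity
    have h2 : (1 : ℝ) / (k + 2) < 1 := by
      rw [div_lt_one (by positivity)]
      have : (0 : ℝ) ≤ k := Nat.cast_nonneg k
      linarith
    have h3 : 0 < (d : ℝ) - 1 / (k + 2) := by linarith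
    apply ae_simul hd (by positivity)
    rw [one_div, inv_mul_eq_div, lt_div_iff₀ h3]
    linarith
  filter_upwards [h] with β hβ
  exact slow_of_simul hd hβ

end Pool.Agent.V7H68.Kak
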