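import Mathlib

/-!
# Averages of continuous functions on the torus along long segments
-/

set_option autoImplicit false

namespace Pool.Agent.V7H68.Kak

open MeasureTheory Set Filter Topology
open scoped ENNReal

variable {n : ℕ}

/-- The projection of `ℝ^n` onto the torus. -/
def proj (x : Fin n → ℝ) : UnitAddTorus (Fin n) := fun i => (x i : UnitAddCircle)

theorem continuous_proj : Continuous (proj (n := n)) := by
  unfold proj
  exact continuous_pi fun i => (AddCircle.continuous_mk' 1).comp (continuous_apply i)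

theorem isOpenMap_proj : IsOpenMap (proj (n := n)) := by
  have h : (proj (n := n)) = Pi.map (fun _ : Fin n => ((↑) : ℝ → UnitAddCircle)) := rfl
  rw [h]
  apply IsOpenMap.piMap
  · intro i
    exact QuotientAddGroup.isOpenMap_coe
  · exact Eventually.of_forall fun i => QuotientAddGroup.mk_surjective

theorem mFourier_proj (m : Fin n → ℤ) (x : Fin n → ℝ) :
    UnitAddTorus.mFourier m (proj x) =
      Complex.exp (2 * Real.pi * Complex.I * ((∑ i, (m i : ℝ) * x i : ℝ) : ℂ)) := by
  simp only [UnitAddTorus.mFourier, ContinuousMap.coe_mk, proj]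
  rw [show (∏ i, (fourier (m i)) ((x i : ℝ) : UnitAddCircle) : ℂ) =
    ∏ i, Complex.exp (2 * Real.pi * Complex.I * (((m i : ℝ) * x i : ℝ) : ℂ)) from ?_]
  · rw [← Complex.exp_sum, ← Finset.mul_sum]
    push_cast
    rfl
  · apply Finset.prod_congr rfl
    intro i _
    rw [fourier_coe_apply]
    congr 1
    push_cast
    ring

theorem integral_mFourier {m : Fin n → ℤ} (hm : m ≠ 0) :
    ∫ x : UnitAddTorus (Fin n), UnitAddTorus.mFourier m x = 0 := by
  obtain ⟨i, hi⟩ := Function.ne_iff.1 hm
  simp only [Pi.zero_apply] at hi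
  have hi' : (m i : ℝ) ≠ 0 := by exact_mod_cast hi
  -- a translation which multiplies the character by `-1`
  set a : Fin n → ℝ := Pi.single i (1 / (2 * (m i : ℝ))) with ha
  have h1 : UnitAddTorus.mFourier m (proj a) = -1 := by
    rw [mFourier_proj]
    have : ∑ j, (m j : ℝ) * a j = 1 / 2 := by
      rw [Finset.sum_eq_single i]
      · rw [ha, Pi.single_eq_same]; field_simp
      · intro j _ hj
        rw [ha, Pi.single_eq_of_ne hj, mul_zero]
      · simp
    rw [this]
    rw [show (2 * Real.pi * Complex.I * (((1 / 2 : ℝ)) : ℂ) : ℂ) = Real.pi * Complex.I by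
      push_cast; ring]
    exact Complex.exp_pi_mul_I
  have hmul : ∀ x : UnitAddTorus (Fin n), UnitAddTorus.mFourier m (x + proj a) =
      - UnitAddTorus.mFourier m x := by
    intro x
    obtain ⟨y, rfl⟩ : ∃ y : Fin n → ℝ, proj y = x := by
      choose y hy using fun i => QuotientAddGroup.mk_surjective (x i)
      exact ⟨y, funext hy⟩
    have h2 : proj y + proj a = proj (y + a) := by
      funext j
      simp [proj]
    rw [h2, mFourier_proj, mFourier_proj]
    rw [mFourier_proj] at h1
    have h3 : (∑ j, (m j : ℝ) * (y + a) j) = (∑ j, (m j : ℝ) * y j) + ∑ j, (m j : ℝ) * a j := by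
      rw [← Finset.sum_add_distrib]
      apply Finset.sum_congr rfl
      intro j _
      simp [mul_add]
    rw [h3, Complex.ofReal_add, mul_add, Complex.exp_add, h1]
    ring
  have h4 : ∫ x : UnitAddTorus (Fin n), UnitAddTorus.mFourier m (x + proj a) =
      ∫ x : UnitAddTorus (Fin n), UnitAddTorus.mFourier m x :=
    integral_add_right_eq_self (fun x => UnitAddTorus.mFourier m x) (proj a)
  simp only [hmul, integral_neg] at h4
  have h5 : (2 : ℂ) * ∫ x : UnitAddTorus (Fin n), UnitAddTorus.mFourier m x = 0 := by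
    linear_combination -h4
  simpa using h5

/-- The average of `p` over a segment of length proportional to `L`. -/
noncomputable def avg (p : UnitAddTorus (Fin n) → ℂ) (y e : Fin n → ℝ) (L : ℝ) : ℂ :=
  ∫ u in (0:ℝ)..1, p (proj (fun i => y i + u * L * e i))

/-- The averages of `p` over long segments converge to the integral, uniformly in the position, for
all directions outside finitely many rational hyperplanes. -/
def Equi (p : C(UnitAddTorus (Fin n), ℂ)) : Prop :=
  ∃ S : Finset (Fin n → ℤ), 0 ∉ S ∧ ∀ e : Fin n → ℝ, (∀ m ∈ S, ∑ i, (m i : ℝ) * e i ≠ 0) →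
    ∀ ε : ℝ, 0 < ε → ∃ L₀ : ℝ, 0 < L₀ ∧ ∀ L, L₀ ≤ L → ∀ y : Fin n → ℝ,
      ‖avg p y e L - ∫ x, p x‖ ≤ ε

theorem continuous_line (p : C(UnitAddTorus (Fin n), ℂ)) (y e : Fin n → ℝ) (L : ℝ) :
    Continuous fun u : ℝ => p (proj (fun i => y i + u * L * e i)) := by
  apply p.continuous.comp
  apply continuous_proj.comp
  fun_prop

theorem Equi.add {p q : C(UnitAddTorus (Fin n), ℂ)} (hp : Equi p) (hq : Equi q) :
    Equi (p + q) := by
  classical
  obtain ⟨S, hS0, hS⟩ := hp
  obtain ⟨T, hT0, hT⟩ := hq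
  refine ⟨S ∪ T, by simp [hS0, hT0], ?_⟩
  intro e he ε hε
  obtain ⟨L1, hL1, h1⟩ := hS e (fun m hm => he m (Finset.mem_union_left _ hm)) (ε / 2) (by linarith)
  obtain ⟨L2, hL2, h2⟩ := hT e (fun m hm => he m (Finset.mem_union_right _ hm)) (ε / 2)
    (by linarith)
  refine ⟨max L1 L2, lt_max_of_lt_left hL1, ?_⟩
  intro L hL y
  have e1 : avg (p + q : C(UnitAddTorus (Fin n), ℂ)) y e L = avg p y e L + avg q y e L := by
    unfold avg
    rw [← intervalIntegral.integral_add]
    · rfl
    · exact (continuous_line p y e L).intervalIntegrable _ _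
    · exact (continuous_line q y e L).intervalIntegrable _ _
  have e2 : ∫ x, (p + q : C(UnitAddTorus (Fin n), ℂ)) x = (∫ x, p x) + ∫ x, q x := by
    rw [← integral_add]
    · rfl
    · exact p.continuous.integrable_of_hasCompactSupport (HasCompactSupport.of_compactSpace _)
    · exact q.continuous.integrable_of_hasCompactSupport (HasCompactSupport.of_compactSpace _)
  rw [e1, e2]
  calc ‖avg p y e L + avg q y e L - ((∫ x, p x) + ∫ x, q x)‖
      = ‖(avg p y e L - ∫ x, p x) + (avg q y e L - ∫ x, q x)‖ := by congr 1; ring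
    _ ≤ ‖avg p y e L - ∫ x, p x‖ + ‖avg q y e L - ∫ x, q x‖ := norm_add_le _ _
    _ ≤ ε / 2 + ε / 2 := add_le_add (h1 L ((le_max_left _ _).trans hL) y)
        (h2 L ((le_max_right _ _).trans hL) y)
    _ = ε := by ring

theorem Equi.smul {p : C(UnitAddTorus (Fin n), ℂ)} (hp : Equi p) (c : ℂ) :
    Equi (c • p) := by
  obtain ⟨S, hS0, hS⟩ := hp
  refine ⟨S, hS0, ?_⟩
  intro e he ε hε
  obtain ⟨L1, hL1, h1⟩ := hS e he (ε / (‖c‖ + 1)) (by positivity)
  refine ⟨L1, hL1, ?_⟩
  intro L hL y
  have e1 : avg (c • p : C(UnitAddTorus (Fin n), ℂ)) y e L = c * avg p y e L := by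
    unfold avg
    rw [← intervalIntegral.integral_const_mul]
    rfl
  have e2 : ∫ x, (c • p : C(UnitAddTorus (Fin n), ℂ)) x = c * ∫ x, p x := by
    rw [← integral_const_mul]
    rfl
  rw [e1, e2, ← mul_sub, norm_mul]
  have h2 := h1 L hL y
  calc ‖c‖ * ‖avg p y e L - ∫ x, p x‖ ≤ (‖c‖ + 1) * (ε / (‖c‖ + 1)) := by
        apply mul_le_mul (by linarith) h2 (norm_nonneg _) (by positivity)
    _ = ε := by field_simp

theorem equi_mFourier (m : Fin n → ℤ) : Equi (UnitAddTorus.mFourier m) := by
  classical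
  by_cases hm : m = 0
  · subst hm
    refine ⟨∅, by simp, ?_⟩
    intro e _ ε hε
    refine ⟨1, one_pos, ?_⟩
    intro L _ y
    have e1 : avg (UnitAddTorus.mFourier (0 : Fin n → ℤ)) y e L = 1 := by
      unfold avg
      rw [UnitAddTorus.mFourier_zero]
      simp
    have e2 : ∫ x : UnitAddTorus (Fin n), UnitAddTorus.mFourier (0 : Fin n → ℤ) x = 1 := by
      rw [UnitAddTorus.mFourier_zero]
      have hv : (volume : Measure (UnitAddTorus (Fin n))).real univ = 1 := by
        rw [Measure.real, volume_pi, Measure.pi_univ]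
        simp
      simp [hv]
    rw [e1, e2]
    simp [hε.le]
  · refine ⟨{m}, by simpa using fun h => hm h.symm, ?_⟩
    intro e he ε hε
    have hc := he m (by simp)
    set c : ℝ := ∑ i, (m i : ℝ) * e i with hcdef
    refine ⟨1 / (ε * |c|), by positivity, ?_⟩
    intro L hL y
    have hL0 : 0 < L := lt_of_lt_of_le (by positivity) hL
    rw [integral_mFourier hm, sub_zero]
    have hlin : ∀ u : ℝ, (∑ i, (m i : ℝ) * (y i + u * L * e i)) =
        (∑ i, (m i : ℝ) * y i) + u * (L * c) := by
      intro u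
      rw [hcdef, Finset.mul_sum, Finset.mul_sum, ← Finset.sum_add_distrib]
      apply Finset.sum_congr rfl
      intro i _
      ring
    set w : ℂ := 2 * Real.pi * Complex.I * (L * c : ℝ) with hw
    have hw0 : w ≠ 0 := by
      rw [hw]
      have hpi : (Real.pi : ℂ) ≠ 0 := by exact_mod_cast Real.pi_ne_zero
      simp [hpi, Complex.I_ne_zero, hL0.ne', hc]
    have e1 : avg (UnitAddTorus.mFourier m) y e L =
        Complex.exp (2 * Real.pi * Complex.I * ((∑ i, (m i : ℝ) * y i : ℝ) : ℂ)) *
          ((Complex.exp w - 1) / w) := by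
      unfold avg
      have : ∀ u : ℝ, UnitAddTorus.mFourier m (proj (fun i => y i + u * L * e i)) =
          Complex.exp (2 * Real.pi * Complex.I * ((∑ i, (m i : ℝ) * y i : ℝ) : ℂ)) *
            Complex.exp (w * u) := by
        intro u
        rw [mFourier_proj, hlin, ← Complex.exp_add]
        congr 1
        rw [hw]
        push_cast
        ring
      simp only [this]
      rw [intervalIntegral.integral_const_mul, integral_exp_mul_complex hw0]
      simp
    rw [e1, norm_mul]
    have hn1 : ‖Complex.exp (2 * Real.pi * Complex.I * ((∑ i, (m i : ℝ) * y i : ℝ) : ℂ))‖ = 1 := by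
      rw [show (2 * Real.pi * Complex.I * ((∑ i, (m i : ℝ) * y i : ℝ) : ℂ) : ℂ) =
        ((2 * Real.pi * (∑ i, (m i : ℝ) * y i) : ℝ) : ℂ) * Complex.I by push_cast; ring]
      exact Complex.norm_exp_ofReal_mul_I _
    have hn2 : ‖Complex.exp w‖ = 1 := by
      rw [show w = ((2 * Real.pi * (L * c) : ℝ) : ℂ) * Complex.I by rw [hw]; push_cast; ring]
      exact Complex.norm_exp_ofReal_mul_I _
    rw [hn1, one_mul, norm_div]
    have hn3 : ‖Complex.exp w - 1‖ ≤ 2 := by
      calc ‖Complex.exp w - 1‖ ≤ ‖Complex.exp w‖ + ‖(1:ℂ)‖ := norm_sub_le _ _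
        _ = 2 := by rw [hn2]; norm_num
    have hn4 : ‖w‖ = 2 * Real.pi * (L * |c|) := by
      rw [hw]
      rw [norm_mul, norm_mul, norm_mul, Complex.norm_I, Complex.norm_real, Complex.norm_real]
      simp only [Complex.norm_ofNat, Real.norm_eq_abs, abs_of_pos Real.pi_pos, mul_one, abs_mul,
        abs_of_pos hL0]
    rw [hn4]
    have hc0 : 0 < |c| := abs_pos.2 hc
    rw [div_le_iff₀ (by positivity)]
    have h1 : 1 ≤ ε * (L * |c|) := by
      have : 1 / (ε * |c|) * (ε * |c|) ≤ L * (ε * |c|) :=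
        mul_le_mul_of_nonneg_right hL (by positivity)
      rw [div_mul_cancel₀ _ (by positivity)] at this
      linarith
    have h2 : 2 ≤ 2 * Real.pi := by
      have := Real.two_le_pi
      linarith
    nlinarith [hn3, h1, h2, mul_pos hε (mul_pos hL0 hc0)]

theorem equi_of_mem_span {p : C(UnitAddTorus (Fin n), ℂ)}
    (hp : p ∈ Submodule.span ℂ (range (UnitAddTorus.mFourier (d := Fin n)))) : Equi p := by
  induction hp using Submodule.span_induction with
  | mem x hx =>
    obtain ⟨m, rfl⟩ := hx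
    exact equi_mFourier m
  | zero =>
    have h1 := (equi_mFourier (0 : Fin n → ℤ)).smul 0
    have h2 : (0 : ℂ) • UnitAddTorus.mFourier (0 : Fin n → ℤ) = 0 := by
      ext x
      simp
    rwa [h2] at h1
  | add x y _ _ hx hy => exact hx.add hy
  | smul a x _ hx => exact hx.smul a

theorem exists_approx (f : C(UnitAddTorus (Fin n), ℂ)) {ε : ℝ} (hε : 0 < ε) :
    ∃ p : C(UnitAddTorus (Fin n), ℂ), Equi p ∧ ‖f - p‖ ≤ ε := by
  have h := UnitAddTorus.span_mFourier_closure_eq_top (d := Fin n)
  have hf : f ∈ (Submodule.span ℂ (range (UnitAddTorus.mFourier (d := Fin n)))).topologicalClosure := by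
    rw [h]; trivial
  have hf' : f ∈ closure ((Submodule.span ℂ (range (UnitAddTorus.mFourier (d := Fin n)))) :
      Set C(UnitAddTorus (Fin n), ℂ)) := hf
  rw [Metric.mem_closure_iff] at hf'
  obtain ⟨p, hp, hd⟩ := hf' ε hε
  refine ⟨p, equi_of_mem_span hp, ?_⟩
  rw [← dist_eq_norm]
  exact hd.le

end Pool.Agent.V7H68.Kak
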