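import Pool.Agent.V7H68.Kak.Defs
import Pool.Agent.V7H68.Kak.Torus

/-!
# Lines in automatic sets with empty interior
-/

set_option autoImplicit false

namespace Pool.Agent.V7H68.Kak

open MeasureTheory Set Filter Topology
open scoped ENNReal

variable {n : ℕ}

theorem step_open {b : ℕ} (hb : 2 ≤ b) {K : Set (E n)} (hK : IsClosed K) (hi : interior K = ∅)
    (k : ℕ) (z : Fin n → ℤ) {U : Set (Fin n → ℝ)} (hU : IsOpen U) (hne : U.Nonempty) :
    ∃ V ⊆ U, IsOpen V ∧ V.Nonempty ∧ Disjoint V (zoom b K k z) := by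
  set φ : (Fin n → ℝ) → E n := fun y => WithLp.toLp 2 (fun i => (z i + y i) / (b : ℝ) ^ k) with hφ
  have hbk : (b : ℝ) ^ k ≠ 0 := by positivity
  have hφc : Continuous φ := by
    apply (PiLp.continuous_toLp 2 _).comp
    fun_prop
  refine ⟨U \ (φ ⁻¹' K), sdiff_subset, hU.sdiff (hK.preimage hφc), ?_, ?_⟩
  · by_contra hcon
    rw [Set.not_nonempty_iff_eq_empty, Set.sdiff_eq_empty] at hcon
    obtain ⟨y, hy⟩ := hne
    set ψ : E n → (Fin n → ℝ) := fun p i => (b : ℝ) ^ k * p i - z i with hψ
    have hψc : Continuous ψ := by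
      apply continuous_pi
      intro i
      have : Continuous fun p : E n => p i := by fun_prop
      fun_prop
    have hsub : ψ ⁻¹' U ⊆ K := by
      intro p hp
      have h1 : φ (ψ p) ∈ K := hcon hp
      have h2 : φ (ψ p) = p := by
        rw [hφ, hψ]
        ext i
        simp only
        field_simp
        ring
      rwa [h2] at h1
    have hψφ : ψ (φ y) = y := by
      rw [hφ, hψ]
      funext i
      simp only
      field_simp
      ring
    have h3 : φ y ∈ interior K := by
      rw [mem_interior]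
      exact ⟨ψ ⁻¹' U, hsub, hU.preimage hψc, by rw [mem_preimage, hψφ]; exact hy⟩
    rw [hi] at h3
    exact h3
  · rw [Set.disjoint_left]
    rintro y ⟨_, hy⟩ ⟨_, hy2⟩
    exact hy hy2

theorem exists_open {b : ℕ} (hb : 2 ≤ b) {K : Set (E n)} (hK : IsAutomatic b K)
    (hi : interior K = ∅) :
    ∃ U : Set (Fin n → ℝ), IsOpen U ∧ U.Nonempty ∧ (∀ y ∈ U, ∀ i, 0 < y i ∧ y i < 1) ∧
      ∀ k z, Disjoint U (zoom b K k z) := by
  have key : ∀ S : Set (Set (Fin n → ℝ)), S.Finite →
      S ⊆ {A : Set (Fin n → ℝ) | ∃ k z, A = zoom b K k z} →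
      ∃ U : Set (Fin n → ℝ), IsOpen U ∧ U.Nonempty ∧ (∀ y ∈ U, ∀ i, 0 < y i ∧ y i < 1) ∧
      ∀ A ∈ S, Disjoint U A := by
    intro S hS
    induction S, hS using Set.Finite.induction_on with
    | empty =>
      intro _
      refine ⟨Set.pi univ fun _ => Ioo 0 1, isOpen_set_pi finite_univ fun _ _ => isOpen_Ioo, ?_, ?_,
        ?_⟩
      · exact ⟨fun _ => 1 / 2, fun i _ => by norm_num⟩
      · intro y hy i
        exact hy i (mem_univ i)
      · simp
    | @insert A S _ _ ih =>
      intro hsub
      obtain ⟨U, hU, hne, h01, hd⟩ := ih ((subset_insert _ _).trans hsub)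
      obtain ⟨k, z, rfl⟩ := hsub (mem_insert _ _)
      obtain ⟨V, hVU, hV, hVne, hVd⟩ := step_open hb hK.1 hi k z hU hne
      refine ⟨V, hV, hVne, fun y hy => h01 y (hVU hy), ?_⟩
      intro B hB
      rcases hB with rfl | hB
      · exact hVd
      · exact (hd B hB).mono_left hVU
  obtain ⟨U, hU, hne, h01, hd⟩ := key _ hK.2 subset_rfl
  exact ⟨U, hU, hne, h01, fun k z => hd _ ⟨k, z, rfl⟩⟩

/-- The points of `K`, enlarged by `b^k`, avoid a fixed open set of the torus. -/
theorem exists_open_torus {b : ℕ} (hb : 2 ≤ b) {K : Set (E n)} (hK : IsAutomatic b K)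
    (hi : interior K = ∅) :
    ∃ V : Set (UnitAddTorus (Fin n)), IsOpen V ∧ V.Nonempty ∧
      ∀ (k : ℕ) (x : E n), x ∈ K → proj (fun i => (b : ℝ) ^ k * x i) ∉ V := by
  obtain ⟨U, hU, hne, h01, hd⟩ := exists_open hb hK hi
  refine ⟨proj '' U, isOpenMap_proj U hU, hne.image _, ?_⟩
  rintro k x hx ⟨u, hu, hux⟩
  have hbk : (b : ℝ) ^ k ≠ 0 := by positivity
  set z : Fin n → ℤ := fun i => ⌊(b : ℝ) ^ k * x i⌋ with hz
  set y : Fin n → ℝ := fun i => Int.fract ((b : ℝ) ^ k * x i) with hy
  have hyz : y ∈ zoom b K k z := by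
    refine ⟨fun i => ⟨Int.fract_nonneg _, Int.fract_lt_one _⟩, ?_⟩
    have : (WithLp.toLp 2 (fun i => (z i + y i) / (b : ℝ) ^ k) : E n) = x := by
      ext i
      simp only [hz, hy, Int.floor_add_fract]
      field_simp
    rw [this]
    exact hx
  have huy : u = y := by
    funext i
    have h1 : ((u i : ℝ) : UnitAddCircle) = (((b : ℝ) ^ k * x i : ℝ) : UnitAddCircle) :=
      congrFun hux i
    have h2 : (((u i - (b : ℝ) ^ k * x i : ℝ)) : UnitAddCircle) = 0 := by
      rw [AddCircle.coe_sub, h1, sub_self]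
    rw [AddCircle.coe_eq_zero_iff] at h2
    obtain ⟨j, hj⟩ := h2
    have h3 : (b : ℝ) ^ k * x i = u i - j := by
      have : (j : ℝ) = u i - (b : ℝ) ^ k * x i := by simpa using hj
      linarith
    rw [hy]
    simp only
    rw [eq_comm, Int.fract_eq_iff]
    refine ⟨(h01 u hu i).1.le, (h01 u hu i).2, -j, ?_⟩
    rw [h3]
    push_cast
    ring
  rw [← huy] at hyz
  exact (Set.disjoint_left.1 (hd k z)) hu hyz

/-- **Lines in an automatic set with empty interior.** -/
theorem volume_line {b : ℕ} (hb : 2 ≤ b) {K : Set (E n)} (hK : IsAutomatic b K)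
    (hi : interior K = ∅) :
    ∃ S : Finset (Fin n → ℤ), 0 ∉ S ∧ ∀ e : E n, (∀ m ∈ S, ∑ i, (m i : ℝ) * e i ≠ 0) →
      ∀ x : E n, volume {t : ℝ | x + t • e ∈ K} = 0 := by
  obtain ⟨V, hV, ⟨v₀, hv₀⟩, hVd⟩ := exists_open_torus hb hK hi
  obtain ⟨f, hf0, hf1, hf01⟩ := exists_continuous_zero_one_of_isClosed hV.isClosed_compl
    (isClosed_singleton (x := v₀)) (by
      rw [Set.disjoint_left]
      rintro y hy hy2
      rw [mem_singleton_iff] at hy2
      subst hy2
      exact hy hv₀)
  set F : C(UnitAddTorus (Fin n), ℂ) := ⟨fun x => (f x : ℂ), by fun_prop⟩ with hF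
  set c : ℝ := ∫ x, f x with hc
  have hc0 : 0 < c := by
    apply Continuous.integral_pos_of_hasCompactSupport_nonneg_nonzero f.continuous
      (HasCompactSupport.of_compactSpace _) (fun x => (hf01 x).1) (x := v₀)
    rw [hf1 (mem_singleton v₀)]
    simp
  obtain ⟨p, ⟨S, hS0, hS⟩, hFp⟩ := exists_approx F (ε := c / 4) (by linarith)
  refine ⟨S, hS0, ?_⟩
  intro e he x
  obtain ⟨L, hL0, hL⟩ := hS (fun i => e i) he (c / 4) (by linarith)
  by_contra hpos
  set T : Set ℝ := {t : ℝ | x + t • e ∈ K} with hT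
  have hTc : IsClosed T := by
    apply hK.1.preimage
    fun_prop
  -- a density point
  have hdens := Besicovitch.ae_tendsto_measure_inter_div (volume : Measure ℝ) T
  have hne : (volume.restrict T) ≠ 0 := by
    rw [Ne, Measure.restrict_eq_zero]
    exact hpos
  have : (ae (volume.restrict T)).NeBot := ae_neBot.2 hne
  obtain ⟨t₀, ht₀⟩ := hdens.exists
  set η : ℝ := min (c / 8) (1 / 2) with hη
  have hη0 : 0 < η := by
    rw [hη]
    exact lt_min (by linarith) (by norm_num)
  have hη1 : η ≤ 1 / 2 := min_le_right _ _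
  have hη2 : η ≤ c / 8 := min_le_left _ _
  -- the radii
  set δ : ℕ → ℝ := fun k => L / (2 * (b : ℝ) ^ k) with hδ
  have hb1 : (1 : ℝ) < b := by exact_mod_cast (by omega : 1 < b)
  have hδ0 : ∀ k, 0 < δ k := by
    intro k
    rw [hδ]
    positivity
  have hδt : Tendsto δ atTop (𝓝[>] 0) := by
    rw [tendsto_nhdsWithin_iff]
    refine ⟨?_, Eventually.of_forall hδ0⟩
    rw [hδ]
    apply Tendsto.const_div_atTop
    exact Tendsto.const_mul_atTop (by norm_num) (tendsto_pow_atTop_atTop_of_one_lt hb1)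
  have hlt : (ENNReal.ofReal (1 - η)) < 1 := by
    rw [← ENNReal.ofReal_one]
    exact (ENNReal.ofReal_lt_ofReal_iff one_pos).2 (by linarith)
  obtain ⟨k, hk⟩ := ((ht₀.comp hδt).eventually (lt_mem_nhds hlt)).exists
  simp only [Function.comp] at hk
  set d := δ k with hd
  have hd0 : 0 < d := hδ0 k
  have hbk : (b : ℝ) ^ k * (2 * d) = L := by
    rw [hd, hδ]
    have : (b : ℝ) ^ k ≠ 0 := by positivity
    field_simp
  have hball : volume (Metric.closedBall t₀ d) = ENNReal.ofReal (2 * d) := Real.volume_closedBall _ _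
  have hTm : MeasurableSet T := hTc.measurableSet
  have hin : ENNReal.ofReal ((1 - η) * (2 * d)) ≤ volume (T ∩ Metric.closedBall t₀ d) := by
    rw [hball, ENNReal.lt_div_iff_mul_lt (Or.inl (by simpa using hd0)) (Or.inl ENNReal.ofReal_ne_top)]
      at hk
    rw [ENNReal.ofReal_mul (by linarith)]
    exact hk.le
  have hout : volume (Metric.closedBall t₀ d \ T) ≤ ENNReal.ofReal (η * (2 * d)) := by
    have h1 : volume (Metric.closedBall t₀ d ∩ T) + volume (Metric.closedBall t₀ d \ T) =
        volume (Metric.closedBall t₀ d) := measure_inter_add_sdiff _ hTm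
    rw [inter_comm] at h1
    have h2 : ENNReal.ofReal ((1 - η) * (2 * d)) + volume (Metric.closedBall t₀ d \ T) ≤
        ENNReal.ofReal ((1 - η) * (2 * d)) + ENNReal.ofReal (η * (2 * d)) := by
      rw [← ENNReal.ofReal_add (by nlinarith) (by positivity)]
      rw [show (1 - η) * (2 * d) + η * (2 * d) = 2 * d by ring, ← hball, ← h1]
      gcongr
    exact (ENNReal.add_le_add_iff_left ENNReal.ofReal_ne_top).1 h2
  -- the average of `F`
  set y : Fin n → ℝ := fun i => (b : ℝ) ^ k * (x i + (t₀ - d) * e i) with hy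
  have hpt : ∀ u : ℝ, (fun i => y i + u * L * e i) =
      fun i => (b : ℝ) ^ k * (x + (t₀ - d + 2 * d * u) • e) i := by
    intro u
    funext i
    simp only [hy, PiLp.add_apply, PiLp.smul_apply, smul_eq_mul]
    rw [← hbk]
    ring
  have havg : ‖avg F y (fun i => e i) L‖ ≤ η := by
    set g : ℝ → ℝ := Tᶜ.indicator 1 with hg
    have hgm : Measurable g := measurable_one.indicator hTm.compl
    have hgb : ∀ t, ‖g t‖ ≤ 1 := by
      intro t
      rw [hg]
      by_cases h : t ∈ Tᶜ
      · simp [indicator_of_mem h]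
      · simp [indicator_of_notMem h]
    have hgi : IntervalIntegrable (fun u => g (t₀ - d + 2 * d * u)) volume 0 1 := by
      rw [intervalIntegrable_iff]
      exact Measure.integrableOn_of_bounded (M := 1) (by simp)
        (hgm.comp (by fun_prop)).aestronglyMeasurable (Eventually.of_forall fun u => hgb _)
    have h1 : ‖avg F y (fun i => e i) L‖ ≤ ∫ u in (0:ℝ)..1, g (t₀ - d + 2 * d * u) := by
      unfold avg
      apply intervalIntegral.norm_integral_le_of_norm_le zero_le_one
      · apply Eventually.of_forall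
        intro u _
        rw [hpt]
        by_cases hu : t₀ - d + 2 * d * u ∈ T
        · have h2 : proj (fun i => (b : ℝ) ^ k * (x + (t₀ - d + 2 * d * u) • e) i) ∈ Vᶜ :=
            hVd k _ hu
          have h3 : F (proj (fun i => (b : ℝ) ^ k * (x + (t₀ - d + 2 * d * u) • e) i)) = 0 := by
            rw [hF]
            simp only [ContinuousMap.coe_mk]
            rw [hf0 h2]
            simp
          rw [h3, norm_zero]
          exact indicator_nonneg (fun _ _ => zero_le_one) _
        · have h2 : g (t₀ - d + 2 * d * u) = 1 := by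
            rw [hg, indicator_of_mem (show t₀ - d + 2 * d * u ∈ Tᶜ from hu)]
            rfl
          rw [h2, hF]
          simp only [ContinuousMap.coe_mk, Complex.norm_real]
          rw [Real.norm_eq_abs, abs_le]
          have := hf01 (proj (fun i => (b : ℝ) ^ k * (x + (t₀ - d + 2 * d * u) • e) i))
          exact ⟨by linarith [this.1], this.2⟩
      · exact hgi
    have h2 : ∫ u in (0:ℝ)..1, g (t₀ - d + 2 * d * u) =
        (2 * d)⁻¹ * ∫ t in (t₀ - d)..(t₀ + d), g t := by
      rw [intervalIntegral.integral_comp_add_mul g (by positivity)]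
      rw [smul_eq_mul]
      congr 2 <;> ring
    have h3 : ∫ t in (t₀ - d)..(t₀ + d), g t ≤ η * (2 * d) := by
      rw [intervalIntegral.integral_of_le (by linarith), ← integral_Icc_eq_integral_Ioc, hg,
        integral_indicator_one hTm.compl, Measure.real, Measure.restrict_apply hTm.compl]
      apply ENNReal.toReal_le_of_le_ofReal (by positivity)
      rw [Real.closedBall_eq_Icc] at hout
      have : Tᶜ ∩ Icc (t₀ - d) (t₀ + d) = Icc (t₀ - d) (t₀ + d) \ T := by
        ext; simp [and_comm]
      rw [this]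
      exact hout
    rw [h2] at h1
    calc ‖avg F y (fun i => e i) L‖ ≤ (2 * d)⁻¹ * ∫ t in (t₀ - d)..(t₀ + d), g t := h1
      _ ≤ (2 * d)⁻¹ * (η * (2 * d)) := mul_le_mul_of_nonneg_left h3 (by positivity)
      _ = η := by field_simp
  have hp := hL L le_rfl y
  have hcc : ((c : ℝ) : ℂ) = ∫ x, F x := by
    rw [hc]
    exact (integral_complex_ofReal).symm
  have hdiff : ∀ x, ‖F x - p x‖ ≤ c / 4 := fun x => (ContinuousMap.norm_coe_le_norm (F - p) x).trans hFp
  have hv : (volume : Measure (UnitAddTorus (Fin n))).real univ = 1 := by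
    rw [Measure.real, volume_pi, Measure.pi_univ]
    simp
  have hiF : Integrable (fun x => F x) volume :=
    F.continuous.integrable_of_hasCompactSupport (HasCompactSupport.of_compactSpace _)
  have hip : Integrable (fun x => p x) volume :=
    p.continuous.integrable_of_hasCompactSupport (HasCompactSupport.of_compactSpace _)
  have h1 : ‖(∫ x, F x) - ∫ x, p x‖ ≤ c / 4 := by
    rw [← integral_sub hiF hip]
    calc ‖∫ x, (F x - p x)‖ ≤ (c / 4) * (volume : Measure (UnitAddTorus (Fin n))).real univ :=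
          norm_integral_le_of_norm_le_const (Eventually.of_forall hdiff)
      _ = c / 4 := by rw [hv, mul_one]
  have h2 : ‖avg p y (fun i => e i) L - avg F y (fun i => e i) L‖ ≤ c / 4 := by
    unfold avg
    rw [← intervalIntegral.integral_sub ((continuous_line p y _ L).intervalIntegrable _ _)
      ((continuous_line F y _ L).intervalIntegrable _ _)]
    have h3 := intervalIntegral.norm_integral_le_of_norm_le_const (a := (0:ℝ)) (b := 1)
      (f := fun u => p (proj (fun i => y i + u * L * e i)) - F (proj (fun i => y i + u * L * e i)))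
      (C := c / 4) (fun u _ => by rw [norm_sub_rev]; exact hdiff _)
    simpa using h3
  have h4 : ‖((c : ℝ) : ℂ)‖ = c := by
    rw [Complex.norm_real, Real.norm_eq_abs, abs_of_pos hc0]
  have h5 : ((c : ℝ) : ℂ) = ((∫ x, F x) - ∫ x, p x) + -(avg p y (fun i => e i) L - ∫ x, p x) +
      (avg p y (fun i => e i) L - avg F y (fun i => e i) L) + avg F y (fun i => e i) L := by
    rw [hcc]; ring
  have h6 : c ≤ c / 4 + c / 4 + c / 4 + η := by
    calc c = ‖((c : ℝ) : ℂ)‖ := h4.symm
      _ ≤ ‖(∫ x, F x) - ∫ x, p x‖ + ‖-(avg p y (fun i => e i) L - ∫ x, p x)‖ +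
          ‖avg p y (fun i => e i) L - avg F y (fun i => e i) L‖ + ‖avg F y (fun i => e i) L‖ := by
            rw [h5]
            exact norm_add₄_le
      _ ≤ c / 4 + c / 4 + c / 4 + η := by
            rw [norm_neg]
            gcongr
  linarith

end Pool.Agent.V7H68.Kak
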