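import Pool.Agent.V7H68.Kak.Cover

/-!
# MP_b1773a: Kakeya sets and automatic fractals

The zooms of a closed set `K ⊆ ℝ^n` in base `b` are the sets `(b^k K - z) ∩ [0,1)^n`, `k ≥ 0`,
`z ∈ ℤ^n`.  The set is `b`-automatic if it has only finitely many zooms: then a finite automaton reads
the base `b` digits of the points of `K` (Cantor sets, Sierpinski carpets and sponges, graph directed
self-similar sets of this kind, solution sets of digit conditions, polyhedra with rational vertices, ...).

1. Let `K` be a `b`-automatic set with empty interior.  There are finitely many nonzero integer vectors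
   such that, for every direction `e` which is not orthogonal to one of them, EVERY line parallel to
   `e` meets `K` in a set of length zero.
2. Let `K` be contained in a countable union of affine copies of automatic sets with empty interior
   (the bases may be different).  Then for all directions outside countably many proper subspaces
   every line meets `K` in a set of length zero.
3. So no Kakeya set, in any dimension, is contained in such a union; in particular every automatic
   Kakeya set has nonempty interior.

Proof: the image of `b^k K` in the torus avoids a fixed nonempty open set.  A long segment whose direction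
is not orthogonal to finitely many integer vectors is equidistributed well enough to meet this set
in a positive proportion of its length.  Zoom in at a density point of the intersection of the line and
`K`.
-/

set_option autoImplicit false

namespace Pool.Agent.Results.MP_b1773a_an.AutomaticCoversH68

open MeasureTheory Set
open Pool.Agent.V7H68.Kak

theorem result :
    (∀ (n b : ℕ) (K : Set (E n)), 2 ≤ b → IsAutomatic b K → interior K = ∅ →
      ∃ S : Finset (Fin n → ℤ), 0 ∉ S ∧ ∀ e : E n, (∀ m ∈ S, ∑ i, (m i : ℝ) * e i ≠ 0) →
        ∀ x : E n, volume {t : ℝ | x + t • e ∈ K} = 0) ∧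
    (∀ (n : ℕ) (b : ℕ → ℕ) (K : ℕ → Set (E n)) (g : ℕ → (E n ≃ᵃ[ℝ] E n)), (∀ i, 2 ≤ b i) →
      (∀ i, IsAutomatic (b i) (K i)) → (∀ i, interior (K i) = ∅) →
        (∃ 𝒱 : Set (Submodule ℝ (E n)), 𝒱.Countable ∧ ⊤ ∉ 𝒱 ∧ ∀ e : E n, (∀ V ∈ 𝒱, e ∉ V) →
          ∀ x : E n, volume {t : ℝ | x + t • e ∈ ⋃ i, g i '' K i} = 0) ∧
        (1 ≤ n → ¬ ∃ C : Set (E n), IsKakeya C ∧ C ⊆ ⋃ i, g i '' K i)) :=
  ⟨fun _ _ _ hb hK hi => volume_line hb hK hi,
    fun _ b K g hb hK hi => ⟨volume_cover b K g hb hK hi, fun hn => no_kakeya hn b K g hb hK hi⟩⟩

end Pool.Agent.Results.MP_b1773a_an.AutomaticCoversH68
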