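import Pool.Agent.V7H68.Kak.Tree

/-!
# The time which a segment of `K` spends in poor cells
-/

set_option autoImplicit false

namespace Pool.Agent.V7H68.Kak

open MeasureTheory Set Filter Topology
open scoped ENNReal

variable {n : ℕ}

theorem cell_add {b : ℕ} (hb : 2 ≤ b) (k m : ℕ) (p : E n) :
    ∃ w ∈ W n b m, cell b (k + m) p = sub b m (cell b k p) w := by
  refine ⟨fun i => cell b (k + m) p i - (b : ℤ) ^ m * cell b k p i, ?_, ?_⟩
  · rw [mem_W]
    intro i
    simp only [cell]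
    have hbm : (0 : ℝ) < (b : ℝ) ^ m := by positivity
    have h1 := Int.floor_le ((b : ℝ) ^ k * p i)
    have h2 := Int.lt_floor_add_one ((b : ℝ) ^ k * p i)
    constructor
    · rw [sub_nonneg, Int.le_floor]
      push_cast
      rw [pow_add]
      nlinarith
    · rw [sub_lt_iff_lt_add, Int.floor_lt]
      push_cast
      rw [pow_add]
      nlinarith
  · funext i
    simp [sub]

theorem zoom_cell_nonempty {b : ℕ} (hb : 2 ≤ b) {K : Set (E n)} (k : ℕ) {p : E n} (hp : p ∈ K) :
    (zoom b K k (cell b k p)).Nonempty := by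
  refine ⟨fun i => Int.fract ((b : ℝ) ^ k * p i), fun i => ⟨Int.fract_nonneg _, Int.fract_lt_one _⟩,
    ?_⟩
  have hbk : (b : ℝ) ^ k ≠ 0 := by positivity
  have : (WithLp.toLp 2 (fun i => (((cell b k p) i : ℝ) + Int.fract ((b : ℝ) ^ k * p i)) / (b : ℝ) ^ k)
      : E n) = p := by
    ext i
    simp only [cell, Int.floor_add_fract]
    field_simp
  rw [this]
  exact hp

/-- The times at which the segment is in a poor cell. -/
def Bad (b : ℕ) (K : Set (E n)) (lv : ℕ → ℕ) (T : ℕ → ℝ) (x e : E n) (l : ℝ) (r i : ℕ) : Set ℝ :=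
  {t | t ∈ Icc 0 l ∧ cell b (lv i) (x + t • e) ∉ G b K lv T r i}

theorem volume_bad_succ {b : ℕ} (hb : 2 ≤ b) {K : Set (E n)} {lv : ℕ → ℕ} (hlv : Monotone lv)
    {T : ℕ → ℝ} (x e : E n) (l : ℝ) (r i : ℕ) (hfin : (zooms b K (lv i)).Finite) {M A : ℝ}
    (hM : ((zooms b K (lv i)).ncard : ℝ) ≤ M) (hA0 : 0 ≤ A) (hT : 0 ≤ T i)
    (hA : ∀ w, volume (V b (lv i) (lv (i + 1) - lv i) x e l w) ≤ ENNReal.ofReal A) :
    volume (Bad b K lv T x e l (r + 1) i) ≤
      volume (Bad b K lv T x e l r (i + 1)) + ENNReal.ofReal (M * T i * A) := by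
  classical
  set m := lv (i + 1) - lv i with hm
  have hl : lv i + m = lv (i + 1) := by
    have := hlv (Nat.le_succ i)
    simp only [Nat.succ_eq_add_one] at this
    omega
  have hrep : ∀ A : Set (Fin n → ℝ), ∃ z : Fin n → ℤ, A ∈ zooms b K (lv i) → A = zoom b K (lv i) z := by
    intro A
    by_cases h : A ∈ zooms b K (lv i)
    · obtain ⟨z, hz⟩ := h
      exact ⟨z, fun _ => hz⟩
    · exact ⟨0, fun h' => absurd h' h⟩
  choose rep hrep using hrep
  set S : Set (Fin n → ℝ) → Finset (Fin n → ℤ) := fun A =>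
    (W n b m).filter fun w => sub b m (rep A) w ∈ G b K lv T r (i + 1) with hS
  set P : Finset (Set (Fin n → ℝ)) := hfin.toFinset.filter fun A => ((S A).card : ℝ) < T i with hP
  have hsub : Bad b K lv T x e l (r + 1) i ⊆ Bad b K lv T x e l r (i + 1) ∪
      ⋃ A ∈ P, ⋃ w ∈ S A, V b (lv i) m x e l w := by
    rintro t ⟨ht, hbad⟩
    by_cases hgood : cell b (lv (i + 1)) (x + t • e) ∈ G b K lv T r (i + 1)
    · right
      set z := cell b (lv i) (x + t • e) with hz
      obtain ⟨w, hw, hcw⟩ := cell_add hb (lv i) m (x + t • e)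
      rw [hl, ← hz] at hcw
      set A := zoom b K (lv i) z with hAd
      have hAz : A ∈ zooms b K (lv i) := ⟨z, rfl⟩
      have hzr : zoom b K (lv i) z = zoom b K (lv i) (rep A) := by
        rw [← hAd]; exact hrep A hAz
      have hpoor : rep A ∉ G b K lv T (r + 1) i := by
        rw [← G_congr hb K lv hlv T (r + 1) i z (rep A) hzr]
        exact hbad
      simp only [mem_iUnion, exists_prop]
      refine ⟨A, ?_, w, ?_, ht, ?_⟩
      · rw [hP, Finset.mem_filter, Set.Finite.mem_toFinset]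
        refine ⟨hAz, ?_⟩
        simp only [G, mem_ofPred_eq, not_le] at hpoor
        exact hpoor
      · rw [hS]
        simp only [Finset.mem_filter]
        refine ⟨hw, ?_⟩
        have h2 := zoom_sub hb K (lv i) m z w hw
        have h3 := zoom_sub hb K (lv i) m (rep A) w hw
        rw [hl] at h2 h3
        rw [← hzr, ← h2] at h3
        rw [G_congr hb K lv hlv T r (i + 1) _ _ h3, ← hcw]
        exact hgood
      · rw [hl]
        exact hcw
    · left
      exact ⟨ht, hgood⟩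
  have hcard : ((P.card : ℕ) : ℝ) ≤ M := by
    refine le_trans ?_ hM
    rw [Set.ncard_eq_toFinset_card _ hfin]
    exact_mod_cast Finset.card_filter_le _ _
  have hin : ∀ A' ∈ P, volume (⋃ w ∈ S A', V b (lv i) m x e l w) ≤ ENNReal.ofReal (T i * A) := by
    intro A' hA'
    rw [hP, Finset.mem_filter] at hA'
    calc volume (⋃ w ∈ S A', V b (lv i) m x e l w)
        ≤ ∑ w ∈ S A', volume (V b (lv i) m x e l w) := measure_biUnion_finset_le _ _
      _ ≤ ∑ w ∈ S A', ENNReal.ofReal A := Finset.sum_le_sum fun w _ => hA w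
      _ = ENNReal.ofReal ((S A').card * A) := by
          rw [Finset.sum_const, nsmul_eq_mul, ENNReal.ofReal_mul (by positivity),
            ENNReal.ofReal_natCast]
      _ ≤ ENNReal.ofReal (T i * A) :=
          ENNReal.ofReal_le_ofReal (mul_le_mul_of_nonneg_right hA'.2.le hA0)
  calc volume (Bad b K lv T x e l (r + 1) i)
      ≤ volume (Bad b K lv T x e l r (i + 1) ∪ ⋃ A ∈ P, ⋃ w ∈ S A, V b (lv i) m x e l w) :=
        measure_mono hsub
    _ ≤ volume (Bad b K lv T x e l r (i + 1)) + volume (⋃ A ∈ P, ⋃ w ∈ S A, V b (lv i) m x e l w) :=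
        measure_union_le _ _
    _ ≤ volume (Bad b K lv T x e l r (i + 1)) + ENNReal.ofReal (M * T i * A) := by
        gcongr
        calc volume (⋃ A ∈ P, ⋃ w ∈ S A, V b (lv i) m x e l w)
            ≤ ∑ A' ∈ P, volume (⋃ w ∈ S A', V b (lv i) m x e l w) := measure_biUnion_finset_le _ _
          _ ≤ ∑ A' ∈ P, ENNReal.ofReal (T i * A) := Finset.sum_le_sum hin
          _ = ENNReal.ofReal (P.card * (T i * A)) := by
              rw [Finset.sum_const, nsmul_eq_mul,
                ENNReal.ofReal_mul (p := (P.card : ℝ)) (Nat.cast_nonneg _), ENNReal.ofReal_natCast]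
          _ ≤ ENNReal.ofReal (M * T i * A) := by
              apply ENNReal.ofReal_le_ofReal
              rw [mul_assoc]
              exact mul_le_mul_of_nonneg_right hcard (by positivity)

theorem volume_bad {b : ℕ} (hb : 2 ≤ b) {K : Set (E n)} {lv : ℕ → ℕ} (hlv : Monotone lv)
    {T : ℕ → ℝ} (x e : E n) (l : ℝ) (hfin : ∀ i, (zooms b K (lv i)).Finite) {M A : ℕ → ℝ}
    (hseg : ∀ t ∈ Icc (0:ℝ) l, x + t • e ∈ K)
    (hM : ∀ i, ((zooms b K (lv i)).ncard : ℝ) ≤ M i) (hA0 : ∀ i, 0 ≤ A i) (hT : ∀ i, 0 ≤ T i)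
    (hA : ∀ i w, volume (V b (lv i) (lv (i + 1) - lv i) x e l w) ≤ ENNReal.ofReal (A i)) (r : ℕ) :
    ∀ i, volume (Bad b K lv T x e l r i) ≤
      ENNReal.ofReal (∑ j ∈ Finset.range r, M (i + j) * T (i + j) * A (i + j)) := by
  have hM0 : ∀ i, 0 ≤ M i := fun i => (Nat.cast_nonneg _).trans (hM i)
  induction r with
  | zero =>
    intro i
    have : Bad b K lv T x e l 0 i = ∅ := by
      rw [Set.eq_empty_iff_forall_notMem]
      rintro t ⟨ht, hbad⟩
      exact hbad (zoom_cell_nonempty hb (lv i) (hseg t ht))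
    rw [this]
    simp
  | succ r ih =>
    intro i
    refine (volume_bad_succ hb hlv x e l r i (hfin i) (hM i) (hA0 i) (hT i) (hA i)).trans ?_
    refine (add_le_add_left (ih (i + 1)) _).trans ?_
    have hnn : ∀ j, 0 ≤ M j * T j * A j := fun j => mul_nonneg (mul_nonneg (hM0 j) (hT j)) (hA0 j)
    rw [← ENNReal.ofReal_add (Finset.sum_nonneg fun j _ => hnn _) (hnn _)]
    apply ENNReal.ofReal_le_ofReal
    rw [Finset.sum_range_succ']
    simp only [add_zero]
    apply le_of_eq
    congr 1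
    apply Finset.sum_congr rfl
    intro j _
    rw [show i + 1 + j = i + (j + 1) by ring]

/-- Some cell of the coarsest level which meets the segment is rich. -/
theorem exists_rich {b : ℕ} (hb : 2 ≤ b) {K : Set (E n)} {lv : ℕ → ℕ} (hlv : Monotone lv)
    {T : ℕ → ℝ} (x e : E n) {l : ℝ} (hl : 0 < l) (hfin : ∀ i, (zooms b K (lv i)).Finite)
    {M A : ℕ → ℝ} (hseg : ∀ t ∈ Icc (0:ℝ) l, x + t • e ∈ K)
    (hM : ∀ i, ((zooms b K (lv i)).ncard : ℝ) ≤ M i) (hA0 : ∀ i, 0 ≤ A i) (hT : ∀ i, 0 ≤ T i)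
    (hA : ∀ i w, volume (V b (lv i) (lv (i + 1) - lv i) x e l w) ≤ ENNReal.ofReal (A i)) (r : ℕ)
    (hsum : ∑ j ∈ Finset.range r, M j * T j * A j < l) :
    ∃ t ∈ Icc (0:ℝ) l, cell b (lv 0) (x + t • e) ∈ G b K lv T r 0 := by
  by_contra hcon
  push Not at hcon
  have h1 := volume_bad hb hlv x e l hfin hseg hM hA0 hT hA r 0
  have h2 : Bad b K lv T x e l r 0 = Icc 0 l := by
    ext t
    constructor
    · exact fun h => h.1
    · exact fun h => ⟨h, hcon t h⟩
  rw [h2, Real.volume_Icc] at h1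
  simp only [zero_add, sub_zero] at h1
  rw [ENNReal.ofReal_le_ofReal_iff'] at h1
  rcases h1 with h1 | h1
  · exact absurd h1 (not_le.2 hsum)
  · linarith

end Pool.Agent.V7H68.Kak
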