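import Pool.Agent.V7H68.Kak.Bad

/-!
# Covers of rich cells
-/

set_option autoImplicit false

namespace Pool.Agent.V7H68.Kak

open MeasureTheory Set Filter Topology
open scoped ENNReal

variable {n : ℕ}

/-- The ball `q` meets the cube of level `k` and index `z`. -/
def Meets (b k : ℕ) (z : Fin n → ℤ) (q : E n × ℝ) : Prop :=
  ∃ p ∈ Metric.ball q.1 q.2, cell b k p = z

theorem sub_inj {b m : ℕ} (hb : 2 ≤ b) {z z' w w' : Fin n → ℤ} (hw : w ∈ W n b m) (hw' : w' ∈ W n b m)
    (h : sub b m z w = sub b m z' w') : z = z' ∧ w = w' := by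
  rw [mem_W] at hw hw'
  have hbm : (0 : ℤ) < (b : ℤ) ^ m := by positivity
  have key : ∀ i, z i = z' i := by
    intro i
    have h1 := congrFun h i
    simp only [sub] at h1
    have e1 : z i = ((b : ℤ) ^ m * z i + w i) / (b : ℤ) ^ m := by
      rw [Int.add_comm, Int.add_mul_ediv_left _ _ hbm.ne', Int.ediv_eq_zero_of_lt (hw i).1 (hw i).2,
        zero_add]
    have e2 : z' i = ((b : ℤ) ^ m * z' i + w' i) / (b : ℤ) ^ m := by
      rw [Int.add_comm, Int.add_mul_ediv_left _ _ hbm.ne',
        Int.ediv_eq_zero_of_lt (hw' i).1 (hw' i).2, zero_add]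
    rw [e1, e2, h1]
  refine ⟨funext key, funext fun i => ?_⟩
  have h1 := congrFun h i
  simp only [sub, key i] at h1
  omega

theorem card_cells {b : ℕ} (k : ℕ) (q : E n × ℝ) (hq : 0 < q.2) (F : Finset (Fin n → ℤ))
    (hF : ∀ z ∈ F, Meets b k z q) : (F.card : ℝ) ≤ (2 * q.2 * (b : ℝ) ^ k + 2) ^ n := by
  classical
  set I : Fin n → Finset ℤ := fun i =>
    Finset.Icc ⌊(b : ℝ) ^ k * (q.1 i - q.2)⌋ ⌊(b : ℝ) ^ k * (q.1 i + q.2)⌋ with hI
  have hbk : (0 : ℝ) ≤ (b : ℝ) ^ k := by positivity
  have hsub : F ⊆ Fintype.piFinset I := by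
    intro z hz
    obtain ⟨p, hp, hpz⟩ := hF z hz
    rw [Fintype.mem_piFinset]
    intro i
    rw [hI]
    simp only [Finset.mem_Icc]
    rw [Metric.mem_ball, dist_eq_norm] at hp
    have h1 : |p i - q.1 i| ≤ ‖p - q.1‖ := by
      have := PiLp.norm_apply_le (p - q.1) i
      simpa using this
    have h2 : |p i - q.1 i| < q.2 := lt_of_le_of_lt h1 hp
    rw [abs_lt] at h2
    rw [← hpz]
    simp only [cell]
    constructor
    · apply Int.floor_le_floor
      apply mul_le_mul_of_nonneg_left _ hbk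
      linarith
    · apply Int.floor_le_floor
      apply mul_le_mul_of_nonneg_left _ hbk
      linarith
  have hcard : ∀ i, ((I i).card : ℝ) ≤ 2 * q.2 * (b : ℝ) ^ k + 2 := by
    intro i
    rw [hI]
    simp only [Int.card_Icc]
    set u := (b : ℝ) ^ k * (q.1 i - q.2) with hu
    set v := (b : ℝ) ^ k * (q.1 i + q.2) with hv
    have huv : v - u = 2 * q.2 * (b : ℝ) ^ k := by rw [hu, hv]; ring
    have h1 := Int.floor_le v
    have h2 := Int.lt_floor_add_one u
    have h3 : ((⌊v⌋ + 1 - ⌊u⌋ : ℤ) : ℝ) ≤ 2 * q.2 * (b : ℝ) ^ k + 2 := by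
      push_cast
      linarith
    have h0 : (0 : ℝ) ≤ 2 * q.2 * (b : ℝ) ^ k + 2 := by positivity
    rcases le_or_gt 0 (⌊v⌋ + 1 - ⌊u⌋) with h4 | h4
    · have : (((⌊v⌋ + 1 - ⌊u⌋).toNat : ℕ) : ℝ) = ((⌊v⌋ + 1 - ⌊u⌋ : ℤ) : ℝ) := by
        exact_mod_cast congrArg (Int.cast (R := ℝ)) (Int.toNat_of_nonneg h4)
      rw [this]
      exact h3
    · rw [Int.toNat_of_nonpos h4.le]
      simpa using h0
  calc (F.card : ℝ) ≤ ((Fintype.piFinset I).card : ℝ) := by exact_mod_cast Finset.card_le_card hsub
    _ = ∏ i, ((I i).card : ℝ) := by rw [Fintype.card_piFinset]; push_cast; rfl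
    _ ≤ ∏ _i : Fin n, (2 * q.2 * (b : ℝ) ^ k + 2) :=
        Finset.prod_le_prod (fun i _ => Nat.cast_nonneg _) fun i _ => hcard i
    _ = (2 * q.2 * (b : ℝ) ^ k + 2) ^ n := by simp

open Classical in
/-- **Covers of a rich cell.** -/
theorem cover_rich {b : ℕ} (hb : 2 ≤ b) {K : Set (E n)} {lv : ℕ → ℕ} (hlv : Monotone lv)
    {T P : ℕ → ℝ} {t : ℝ} (hP : ∀ i, 0 < P i)
    (hbase : ∀ i ρ, ((b : ℝ) ^ (lv i))⁻¹ ≤ ρ → 1 ≤ P i * ρ ^ t)
    (hI : ∀ i, 4 ^ n * P (i + 1) ≤ T i * P i)
    (hII : ∀ i ρ, ((b : ℝ) ^ (lv (i + 1)))⁻¹ ≤ ρ → P i * ρ ^ t < 1 →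
      (4 * ρ * (b : ℝ) ^ (lv (i + 1))) ^ n ≤ T i * (P i * ρ ^ t)) (r : ℕ) :
    ∀ (i : ℕ) (z : Fin n → ℤ), z ∈ G b K lv T r i → ∀ s : Finset (E n × ℝ),
      (∀ q ∈ s, ((b : ℝ) ^ (lv (i + r)))⁻¹ ≤ q.2) →
      (∀ p : E n, cell b (lv i) p = z → p ∈ K → ∃ q ∈ s, p ∈ Metric.ball q.1 q.2) →
      1 ≤ ∑ q ∈ s.filter (Meets b (lv i) z), min 1 (P i * q.2 ^ t) := by
  have hb0 : ∀ k, (0 : ℝ) < ((b : ℝ) ^ k)⁻¹ := fun k => by positivity
  have hnn : ∀ i (ρ : ℝ), 0 ≤ ρ → 0 ≤ min 1 (P i * ρ ^ t) := by
    intro i ρ hρ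
    exact le_min zero_le_one (mul_nonneg (hP i).le (Real.rpow_nonneg hρ _))
  induction r with
  | zero =>
    intro i z hz s hs hcov
    simp only [G, mem_ofPred_eq] at hz
    obtain ⟨y, hy, hyK⟩ := hz
    have hbk : (0 : ℝ) < (b : ℝ) ^ (lv i) := by positivity
    have hcell : cell b (lv i) (WithLp.toLp 2 (fun j => ((z j : ℝ) + y j) / (b : ℝ) ^ (lv i))) = z := by
      funext j
      simp only [cell]
      rw [Int.floor_eq_iff]
      rw [mul_div_cancel₀ _ hbk.ne']
      exact ⟨by linarith [(hy j).1], by linarith [(hy j).2]⟩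
    obtain ⟨q, hq, hqb⟩ := hcov _ hcell hyK
    have hmem : q ∈ s.filter (Meets b (lv i) z) := by
      rw [Finset.mem_filter]
      exact ⟨hq, _, hqb, hcell⟩
    have h1 : min 1 (P i * q.2 ^ t) = 1 := min_eq_left (hbase i q.2 (by simpa using hs q hq))
    refine h1.symm.le.trans ?_
    apply Finset.single_le_sum (f := fun q : E n × ℝ => min 1 (P i * q.2 ^ t)) _ hmem
    intro q' hq'
    rw [Finset.mem_filter] at hq'
    exact hnn i _ ((hb0 _).le.trans (hs q' hq'.1))
  | succ r ih =>
    intro i z hz s hs hcov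
    simp only [G, mem_ofPred_eq] at hz
    set m := lv (i + 1) - lv i with hm
    have hl : lv i + m = lv (i + 1) := by
      have := hlv (Nat.le_succ i)
      simp only [Nat.succ_eq_add_one] at this
      omega
    set S := (W n b m).filter (fun w => sub b m z w ∈ G b K lv T r (i + 1)) with hS
    have hT0 : 0 < T i := by
      have h1 := hI i
      have h2 : 0 < 4 ^ n * P (i + 1) := by have := hP (i + 1); positivity
      have h3 : 0 < T i * P i := lt_of_lt_of_le h2 h1
      exact (pos_iff_pos_of_mul_pos h3).2 (hP i)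
    -- a cell of the next level inside the cell `z`
    have hup : ∀ w ∈ W n b m, ∀ p : E n, cell b (lv (i + 1)) p = sub b m z w → cell b (lv i) p = z := by
      intro w hw p hp
      obtain ⟨w', hw', h1⟩ := cell_add hb (lv i) m p
      rw [hl] at h1
      rw [h1] at hp
      exact (sub_inj hb hw' hw hp).1
    have hrad : ∀ q ∈ s, 0 < q.2 := fun q hq => lt_of_lt_of_le (hb0 _) (hs q hq)
    -- sum over the children
    have hsum : ∀ w ∈ S, 1 ≤ ∑ q ∈ s.filter (Meets b (lv (i + 1)) (sub b m z w)),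
        min 1 (P (i + 1) * q.2 ^ t) := by
      intro w hw
      rw [hS, Finset.mem_filter] at hw
      apply ih (i + 1) _ hw.2 s
      · intro q hq
        have := hs q hq
        rwa [show i + (r + 1) = i + 1 + r by ring] at this
      · intro p hp hpK
        exact hcov p (hup w hw.1 p hp) hpK
    have hcount : ∀ q ∈ s, ((S.filter fun w => Meets b (lv (i + 1)) (sub b m z w) q).card : ℝ) ≤
        (2 * q.2 * (b : ℝ) ^ (lv (i + 1)) + 2) ^ n := by
      intro q hq
      set F := (S.filter fun w => Meets b (lv (i + 1)) (sub b m z w) q).image (sub b m z) with hF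
      have hc : F.card = (S.filter fun w => Meets b (lv (i + 1)) (sub b m z w) q).card := by
        apply Finset.card_image_of_injOn
        intro w hw w' hw' h
        simp only [Finset.coe_filter, mem_ofPred_eq, hS, Finset.mem_filter] at hw hw'
        exact (sub_inj hb hw.1.1 hw'.1.1 h).2
      rw [← hc]
      apply card_cells _ q (hrad q hq)
      intro z' hz'
      rw [hF, Finset.mem_image] at hz'
      obtain ⟨w, hw, rfl⟩ := hz'
      exact (Finset.mem_filter.1 hw).2
    have htot : (S.card : ℝ) ≤ ∑ q ∈ s.filter (Meets b (lv i) z),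
        min 1 (P (i + 1) * q.2 ^ t) * (2 * q.2 * (b : ℝ) ^ (lv (i + 1)) + 2) ^ n := by
      calc (S.card : ℝ) = ∑ w ∈ S, (1 : ℝ) := by simp
        _ ≤ ∑ w ∈ S, ∑ q ∈ s.filter (Meets b (lv (i + 1)) (sub b m z w)),
            min 1 (P (i + 1) * q.2 ^ t) := Finset.sum_le_sum hsum
        _ = ∑ w ∈ S, ∑ q ∈ s, if Meets b (lv (i + 1)) (sub b m z w) q then
            min 1 (P (i + 1) * q.2 ^ t) else 0 := by
            apply Finset.sum_congr rfl
            intro w _
            rw [Finset.sum_filter]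
        _ = ∑ q ∈ s, ∑ w ∈ S, if Meets b (lv (i + 1)) (sub b m z w) q then
            min 1 (P (i + 1) * q.2 ^ t) else 0 := Finset.sum_comm
        _ = ∑ q ∈ s, ((S.filter fun w => Meets b (lv (i + 1)) (sub b m z w) q).card : ℝ) *
            min 1 (P (i + 1) * q.2 ^ t) := by
            apply Finset.sum_congr rfl
            intro q _
            rw [← Finset.sum_filter, Finset.sum_const, nsmul_eq_mul]
        _ ≤ ∑ q ∈ s, if Meets b (lv i) z q then
            min 1 (P (i + 1) * q.2 ^ t) * (2 * q.2 * (b : ℝ) ^ (lv (i + 1)) + 2) ^ n else 0 := by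
            apply Finset.sum_le_sum
            intro q hq
            split_ifs with hmeet
            · rw [mul_comm]
              exact mul_le_mul_of_nonneg_left (hcount q hq) (hnn _ _ (hrad q hq).le)
            · have : (S.filter fun w => Meets b (lv (i + 1)) (sub b m z w) q) = ∅ := by
                rw [Finset.filter_eq_empty_iff]
                intro w hw hme
                apply hmeet
                obtain ⟨p, hp, hpc⟩ := hme
                rw [hS, Finset.mem_filter] at hw
                exact ⟨p, hp, hup w hw.1 p hpc⟩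
              rw [this]
              simp
        _ = _ := by rw [Finset.sum_filter]
    by_cases hbig : ∃ q ∈ s.filter (Meets b (lv i) z), 1 ≤ P i * q.2 ^ t
    · obtain ⟨q, hq, h1⟩ := hbig
      have h2 : min 1 (P i * q.2 ^ t) = 1 := min_eq_left h1
      refine h2.symm.le.trans ?_
      apply Finset.single_le_sum (f := fun q : E n × ℝ => min 1 (P i * q.2 ^ t)) _ hq
      intro q' hq'
      rw [Finset.mem_filter] at hq'
      exact hnn i _ (hrad q' hq'.1).le
    · push Not at hbig
      have hterm : ∀ q ∈ s.filter (Meets b (lv i) z),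
          min 1 (P (i + 1) * q.2 ^ t) * (2 * q.2 * (b : ℝ) ^ (lv (i + 1)) + 2) ^ n ≤
            T i * min 1 (P i * q.2 ^ t) := by
        intro q hq
        have hlt := hbig q hq
        rw [Finset.mem_filter] at hq
        have hq0 := hrad q hq.1
        rw [min_eq_right hlt.le]
        set B : ℝ := (b : ℝ) ^ (lv (i + 1)) with hB
        have hB0 : 0 < B := by positivity
        rcases le_total B⁻¹ q.2 with hc | hc
        · have h1 : 2 ≤ 2 * q.2 * B := by
            have := mul_le_mul_of_nonneg_right hc hB0.le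
            rw [inv_mul_cancel₀ hB0.ne'] at this
            linarith
          calc min 1 (P (i + 1) * q.2 ^ t) * (2 * q.2 * B + 2) ^ n
              ≤ 1 * (4 * q.2 * B) ^ n := by
                apply mul_le_mul (min_le_left _ _) _ (by positivity) zero_le_one
                apply pow_le_pow_left₀ (by positivity)
                linarith
            _ = (4 * q.2 * B) ^ n := one_mul _
            _ ≤ T i * (P i * q.2 ^ t) := hII i q.2 hc hlt
        · have h1 : 2 * q.2 * B ≤ 2 := by
            have := mul_le_mul_of_nonneg_right hc hB0.le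
            rw [inv_mul_cancel₀ hB0.ne'] at this
            linarith
          have hr : 0 ≤ q.2 ^ t := Real.rpow_nonneg hq0.le _
          calc min 1 (P (i + 1) * q.2 ^ t) * (2 * q.2 * B + 2) ^ n
              ≤ (P (i + 1) * q.2 ^ t) * 4 ^ n := by
                apply mul_le_mul (min_le_right _ _) _ (by positivity)
                  (mul_nonneg (hP _).le hr)
                apply pow_le_pow_left₀ (by positivity)
                linarith
            _ = (4 ^ n * P (i + 1)) * q.2 ^ t := by ring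
            _ ≤ (T i * P i) * q.2 ^ t := mul_le_mul_of_nonneg_right (hI i) hr
            _ = T i * (P i * q.2 ^ t) := by ring
      have hfin : T i * 1 ≤ T i * ∑ q ∈ s.filter (Meets b (lv i) z), min 1 (P i * q.2 ^ t) := by
        rw [mul_one, Finset.mul_sum]
        exact hz.trans (htot.trans (Finset.sum_le_sum hterm))
      exact le_of_mul_le_mul_left hfin hT0

end Pool.Agent.V7H68.Kak
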