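import Pool.Agent.V7H68.Kak.Auto

/-!
# Countable unions of affine copies of automatic sets
-/

set_option autoImplicit false

namespace Pool.Agent.V7H68.Kak

open MeasureTheory Set Filter Topology
open scoped ENNReal

variable {n : ℕ}

/-- The linear functional `e ↦ m · (T e)`. -/
noncomputable def fn (m : Fin n → ℤ) (T : E n →ₗ[ℝ] E n) : E n →ₗ[ℝ] ℝ where
  toFun e := ∑ i, (m i : ℝ) * T e i
  map_add' x y := by
    simp only [map_add, PiLp.add_apply, mul_add, Finset.sum_add_distrib]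
  map_smul' c x := by
    simp only [map_smul, PiLp.smul_apply, smul_eq_mul, RingHom.id_apply, Finset.mul_sum]
    apply Finset.sum_congr rfl
    intro i _
    ring

theorem volume_cover (b : ℕ → ℕ) (K : ℕ → Set (E n)) (g : ℕ → (E n ≃ᵃ[ℝ] E n))
    (hb : ∀ i, 2 ≤ b i) (hK : ∀ i, IsAutomatic (b i) (K i)) (hi : ∀ i, interior (K i) = ∅) :
    ∃ 𝒱 : Set (Submodule ℝ (E n)), 𝒱.Countable ∧ ⊤ ∉ 𝒱 ∧ ∀ e : E n, (∀ V ∈ 𝒱, e ∉ V) →
      ∀ x : E n, volume {t : ℝ | x + t • e ∈ ⋃ i, g i '' K i} = 0 := by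
  choose S hS0 hS using fun i => volume_line (hb i) (hK i) (hi i)
  set W : ℕ → (Fin n → ℤ) → Submodule ℝ (E n) := fun i m =>
    LinearMap.ker (fn m ((g i).linear.symm : E n →ₗ[ℝ] E n)) with hW
  refine ⟨⋃ i, ⋃ m ∈ S i, {W i m}, ?_, ?_, ?_⟩
  · apply countable_iUnion
    intro i
    apply Set.Countable.biUnion (Finset.countable_toSet _)
    intro m _
    exact countable_singleton _
  · intro htop
    simp only [mem_iUnion, mem_singleton_iff, exists_prop] at htop
    obtain ⟨i, m, hm, heq⟩ := htop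
    have hm0 : m ≠ 0 := fun h => hS0 i (h ▸ hm)
    obtain ⟨j, hj⟩ := Function.ne_iff.1 hm0
    have h1 : (g i).linear (EuclideanSpace.single j 1) ∈ W i m := by
      rw [← heq]; trivial
    rw [hW] at h1
    simp only [LinearMap.mem_ker, fn, LinearMap.coe_mk, AddHom.coe_mk, LinearEquiv.coe_coe,
      LinearEquiv.symm_apply_apply] at h1
    rw [Finset.sum_eq_single j] at h1
    · simp at h1
      exact hj h1
    · intro k _ hk
      simp [hk]
    · simp
  · intro e he x
    have hsub : {t : ℝ | x + t • e ∈ ⋃ i, g i '' K i} ⊆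
        ⋃ i, {t : ℝ | (g i).symm x + t • ((g i).linear.symm e) ∈ K i} := by
      intro t ht
      simp only [mem_ofPred_eq, mem_iUnion] at ht ⊢
      obtain ⟨i, y, hy, hyx⟩ := ht
      refine ⟨i, ?_⟩
      have h1 : (g i).symm (x + t • e) = y := by rw [← hyx]; simp
      have h2 : (g i).symm (x + t • e) = (g i).symm x + t • ((g i).linear.symm e) := by
        have := (g i).symm.map_vadd x (t • e)
        simp only [vadd_eq_add] at this
        rw [add_comm x, this, add_comm]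
        congr 1
        rw [map_smul]
        rfl
      rw [← h2, h1]
      exact hy
    refine measure_mono_null hsub (measure_iUnion_null fun i => ?_)
    apply hS i
    intro m hm h0
    apply he (W i m)
    · simp only [mem_iUnion, mem_singleton_iff, exists_prop]
      exact ⟨i, m, hm, rfl⟩
    · rw [hW]
      simp only [LinearMap.mem_ker, fn, LinearMap.coe_mk, AddHom.coe_mk, LinearEquiv.coe_coe]
      exact h0

/-- A finite dimensional space is not a countable union of proper subspaces; there is a unit vector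
outside. -/
theorem exists_unit (hn : 1 ≤ n) {𝒱 : Set (Submodule ℝ (E n))} (hc : 𝒱.Countable) (ht : ⊤ ∉ 𝒱) :
    ∃ e : E n, ‖e‖ = 1 ∧ ∀ V ∈ 𝒱, e ∉ V := by
  have hnull : volume (({0} : Set (E n)) ∪ ⋃ V ∈ 𝒱, (V : Set (E n))) = 0 := by
    have : Nonempty (Fin n) := ⟨⟨0, hn⟩⟩
    rw [measure_union_null_iff]
    refine ⟨?_, ?_⟩
    · exact measure_singleton 0
    · rw [measure_biUnion_null_iff hc]
      intro V hV
      exact Measure.addHaar_submodule _ V (fun h => ht (h ▸ hV))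
  have hne : (({0} : Set (E n)) ∪ ⋃ V ∈ 𝒱, (V : Set (E n)))ᶜ.Nonempty := by
    rw [nonempty_compl]
    intro h
    rw [h] at hnull
    exact (isOpen_univ.measure_pos volume univ_nonempty).ne' hnull
  obtain ⟨e, he⟩ := hne
  simp only [mem_compl_iff, mem_union, mem_singleton_iff, mem_iUnion, SetLike.mem_coe, not_or,
    not_exists] at he
  have he0 : ‖e‖ ≠ 0 := norm_ne_zero_iff.2 he.1
  refine ⟨‖e‖⁻¹ • e, ?_, ?_⟩
  · rw [norm_smul, norm_inv, norm_norm, inv_mul_cancel₀ he0]
  · intro V hV hmem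
    have := V.smul_mem ‖e‖ hmem
    rw [smul_smul, mul_inv_cancel₀ he0, one_smul] at this
    exact he.2 V hV this

theorem no_kakeya (hn : 1 ≤ n) (b : ℕ → ℕ) (K : ℕ → Set (E n)) (g : ℕ → (E n ≃ᵃ[ℝ] E n))
    (hb : ∀ i, 2 ≤ b i) (hK : ∀ i, IsAutomatic (b i) (K i)) (hi : ∀ i, interior (K i) = ∅) :
    ¬ ∃ C : Set (E n), IsKakeya C ∧ C ⊆ ⋃ i, g i '' K i := by
  rintro ⟨C, hC, hsub⟩
  obtain ⟨𝒱, hc, ht, hV⟩ := volume_cover b K g hb hK hi
  obtain ⟨e, he1, he2⟩ := exists_unit hn hc ht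
  obtain ⟨a, ha⟩ := hC.2 e he1
  have h1 := hV e he2 a
  have h2 : Icc (0:ℝ) 1 ⊆ {t : ℝ | a + t • e ∈ ⋃ i, g i '' K i} := fun t htm =>
    hsub (ha t htm.1 htm.2)
  have h3 := measure_mono_null h2 h1
  simp at h3

end Pool.Agent.V7H68.Kak
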