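import Mathlib

/-!
# Zooms of a closed set at the `b`-adic cubes
-/

set_option autoImplicit false

namespace Pool.Agent.V7H68.Kak

open MeasureTheory Set Filter Topology
open scoped ENNReal

/-- Euclidean space `ℝ^n`. -/
abbrev E (n : ℕ) : Type := EuclideanSpace ℝ (Fin n)

/-- The zoom of `K` at the `b`-adic cube of side `b^(-k)` and corner `z / b^k`: the set of the points
`y` of the half open unit cube such that `(z + y) / b^k` is in `K`. -/
def zoom {n : ℕ} (b : ℕ) (K : Set (E n)) (k : ℕ) (z : Fin n → ℤ) : Set (Fin n → ℝ) :=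
  {y | (∀ i, 0 ≤ y i ∧ y i < 1) ∧ WithLp.toLp 2 (fun i => (z i + y i) / (b : ℝ) ^ k) ∈ K}

/-- A closed set is `b`-automatic if it has only finitely many zooms at `b`-adic cubes. -/
def IsAutomatic {n : ℕ} (b : ℕ) (K : Set (E n)) : Prop :=
  IsClosed K ∧ {A : Set (Fin n → ℝ) | ∃ k z, A = zoom b K k z}.Finite

/-- A Kakeya set: a compact set which contains a unit segment in every direction. -/
def IsKakeya {n : ℕ} (K : Set (E n)) : Prop :=
  IsCompact K ∧ ∀ e : E n, ‖e‖ = 1 → ∃ a : E n, ∀ t : ℝ, 0 ≤ t → t ≤ 1 → a + t • e ∈ K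

end Pool.Agent.V7H68.Kak
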