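import Pool.Agent.V7H68.Kak.Cov
import Pool.Agent.H389R2.Dim.Lower

/-!
# The Hausdorff dimension of a set with rich cells
-/

set_option autoImplicit false

namespace Pool.Agent.V7H68.Kak

open MeasureTheory Set Filter Topology
open scoped ENNReal

variable {n : ℕ}

theorem isCompact_box (K : Set (E n)) (hK : IsClosed K) (x : E n) (R : ℝ) :
    IsCompact (K ∩ {p : E n | ∀ i, |p i - x i| ≤ R}) := by
  have h1 : IsCompact ((WithLp.toLp 2) '' (Set.pi univ fun i => Icc (x i - R) (x i + R)) :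
      Set (E n)) :=
    (isCompact_univ_pi fun i => isCompact_Icc).image (PiLp.continuous_toLp 2 _)
  have h2 : {p : E n | ∀ i, |p i - x i| ≤ R} =
      (WithLp.toLp 2) '' (Set.pi univ fun i => Icc (x i - R) (x i + R)) := by
    ext p
    simp only [mem_ofPred_eq, mem_image, Set.mem_pi, mem_univ, forall_const, mem_Icc]
    constructor
    · intro h
      refine ⟨fun i => p i, fun i => ?_, by ext i; simp⟩
      have := h i
      rw [abs_le] at this
      exact ⟨by linarith [this.1], by linarith [this.2]⟩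
    · rintro ⟨y, hy, rfl⟩ i
      rw [abs_le]
      have := hy i
      simp only
      exact ⟨by linarith [this.1], by linarith [this.2]⟩
  rw [h2]
  exact h1.inter_left hK

theorem le_dimH_abstract {b : ℕ} (hb : 2 ≤ b) {K : Set (E n)} (hK : IsClosed K) {lv : ℕ → ℕ}
    (hlv : Monotone lv) (hlv' : Tendsto lv atTop atTop) {T P M A : ℕ → ℝ} {t : ℝ} (ht : 0 < t)
    (x e : E n) {l : ℝ} (hl : 0 < l) (hfin : ∀ i, (zooms b K (lv i)).Finite)
    (hseg : ∀ s ∈ Icc (0:ℝ) l, x + s • e ∈ K)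
    (hM : ∀ i, ((zooms b K (lv i)).ncard : ℝ) ≤ M i) (hA0 : ∀ i, 0 ≤ A i) (hT : ∀ i, 0 ≤ T i)
    (hA : ∀ i w, volume (V b (lv i) (lv (i + 1) - lv i) x e l w) ≤ ENNReal.ofReal (A i))
    (hsum : ∀ r, ∑ j ∈ Finset.range r, M j * T j * A j < l) (hP : ∀ i, 0 < P i)
    (hbase : ∀ i ρ, ((b : ℝ) ^ (lv i))⁻¹ ≤ ρ → 1 ≤ P i * ρ ^ t)
    (hI : ∀ i, 4 ^ n * P (i + 1) ≤ T i * P i)
    (hII : ∀ i ρ, ((b : ℝ) ^ (lv (i + 1)))⁻¹ ≤ ρ → P i * ρ ^ t < 1 →
      (4 * ρ * (b : ℝ) ^ (lv (i + 1))) ^ n ≤ T i * (P i * ρ ^ t)) :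
    ENNReal.ofReal t ≤ dimH K := by
  classical
  set R : ℝ := 1 + l * ‖e‖ with hR
  set K₀ : Set (E n) := K ∩ {p : E n | ∀ i, |p i - x i| ≤ R} with hK0
  have hcomp : IsCompact K₀ := isCompact_box K hK x R
  refine le_trans ?_ (dimH_mono (inter_subset_left : K₀ ⊆ K))
  have hP0 := hP 0
  apply Pool.Agent.H389R2.Dim.le_dimH_of_good ht (c := (P 0)⁻¹) (by positivity) hcomp
  intro δ hδ
  intro s hs hcov
  -- a fine level
  have hb1 : (1 : ℝ) < b := by exact_mod_cast (by omega : 1 < b)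
  have hlim : Tendsto (fun r => ((b : ℝ) ^ (lv r))⁻¹) atTop (𝓝 0) :=
    ((tendsto_pow_atTop_atTop_of_one_lt hb1).comp hlv').inv_tendsto_atTop
  obtain ⟨r, hr⟩ := (hlim.eventually (gt_mem_nhds hδ)).exists
  obtain ⟨t₀, ht0, hrich⟩ := exists_rich hb hlv x e hl hfin hseg hM hA0 hT hA r (hsum r)
  have h1 := cover_rich hb hlv hP hbase hI hII r 0 _ hrich s
    (fun q hq => by
      rw [zero_add]
      exact hr.le.trans (hs q hq))
    (fun p hp hpK => by
      have hpK0 : p ∈ K₀ := by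
        refine ⟨hpK, fun i => ?_⟩
        have h2 := congrFun hp i
        simp only [cell] at h2
        have h3 : |(b : ℝ) ^ lv 0 * p i - (b : ℝ) ^ lv 0 * (x + t₀ • e) i| < 1 :=
          Int.abs_sub_lt_one_of_floor_eq_floor h2
        rw [← mul_sub, abs_mul, abs_of_pos (by positivity)] at h3
        have h4 : (1 : ℝ) ≤ (b : ℝ) ^ lv 0 := one_le_pow₀ hb1.le
        have h5 : |p i - (x + t₀ • e) i| ≤ 1 := by
          nlinarith [abs_nonneg (p i - (x + t₀ • e) i)]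
        have h6 : |(x + t₀ • e) i - x i| ≤ l * ‖e‖ := by
          simp only [PiLp.add_apply, PiLp.smul_apply, smul_eq_mul, add_sub_cancel_left, abs_mul]
          have h7 : |e i| ≤ ‖e‖ := by
            have := PiLp.norm_apply_le e i
            simpa using this
          rw [abs_of_nonneg ht0.1]
          exact mul_le_mul ht0.2 h7 (abs_nonneg _) hl.le
        calc |p i - x i| = |(p i - (x + t₀ • e) i) + ((x + t₀ • e) i - x i)| := by congr 1; ring
          _ ≤ |p i - (x + t₀ • e) i| + |(x + t₀ • e) i - x i| := abs_add_le _ _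
          _ ≤ R := by rw [hR]; linarith
      obtain ⟨q, hq, hqb⟩ := mem_iUnion₂.1 (hcov hpK0)
      exact ⟨q, hq, hqb⟩)
  have hrad : ∀ q ∈ s, 0 < q.2 := fun q hq => lt_of_lt_of_le hδ (hs q hq)
  have h2 : ∑ q ∈ s.filter (Meets b (lv 0) (cell b (lv 0) (x + t₀ • e))), min 1 (P 0 * q.2 ^ t) ≤
      P 0 * ∑ q ∈ s, q.2 ^ t := by
    rw [Finset.mul_sum]
    calc _ ≤ ∑ q ∈ s.filter (Meets b (lv 0) (cell b (lv 0) (x + t₀ • e))), P 0 * q.2 ^ t :=
          Finset.sum_le_sum fun q _ => min_le_right _ _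
      _ ≤ ∑ q ∈ s, P 0 * q.2 ^ t := by
          apply Finset.sum_le_sum_of_subset_of_nonneg (Finset.filter_subset _ _)
          intro q hq _
          exact mul_nonneg hP0.le (Real.rpow_nonneg (hrad q hq).le _)
  have h3 : 1 ≤ P 0 * ∑ q ∈ s, q.2 ^ t := h1.trans h2
  rw [inv_le_iff_one_le_mul₀ hP0]
  linarith

end Pool.Agent.V7H68.Kak
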