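import Mathlib

/-!
# Inequalities for the exponents
-/

set_option autoImplicit false

namespace Pool.Agent.V7H68.Kak

theorem term_bound {B C l c ε h d : ℝ} (hB1 : 1 < B) (hC : 0 ≤ C) (hl : 0 < l) (hc : 0 < c)
    (hε : 0 < ε) {k m q j : ℕ} (hF1 : d * m ≤ k) (hq : q + j ≤ m) :
    C * B ^ (h * k) * B ^ (((d + 1) - 2 * ε) * m - h * k) *
      ((l * B ^ k / (c * B ^ ((m : ℝ) * (d - ε))) + 1) * (B ^ (k + m))⁻¹) ≤
      C * (l / c + 1) * ((B ^ ε) ^ q)⁻¹ * ((B ^ ε)⁻¹) ^ j := by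
  have hB0 : 0 < B := by linarith
  have e1 : C * B ^ (h * k) * B ^ (((d + 1) - 2 * ε) * m - h * k) =
      C * B ^ (((d + 1) - 2 * ε) * m) := by
    rw [mul_assoc, ← Real.rpow_add hB0]
    congr 2
    ring
  have e2 : (l * B ^ k / (c * B ^ ((m : ℝ) * (d - ε))) + 1) * (B ^ (k + m))⁻¹ =
      (l / c) * B ^ (-((m : ℝ) * (d - ε)) - m) + B ^ (-(k : ℝ) - m) := by
    rw [Real.rpow_sub hB0, Real.rpow_neg hB0.le, Real.rpow_sub hB0, Real.rpow_neg hB0.le,
      Real.rpow_natCast, Real.rpow_natCast, pow_add]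
    field_simp
  have a1 : B ^ (((d + 1) - 2 * ε) * m) * B ^ (-((m : ℝ) * (d - ε)) - m) =
      B ^ (-(ε * m)) := by
    rw [← Real.rpow_add hB0]; congr 1; ring
  have a2 : B ^ (((d + 1) - 2 * ε) * m) * B ^ (-(k : ℝ) - m) =
      B ^ ((d - 2 * ε) * m - k) := by
    rw [← Real.rpow_add hB0]; congr 1; ring
  have e3 : C * B ^ (h * k) * B ^ (((d + 1) - 2 * ε) * m - h * k) *
      ((l * B ^ k / (c * B ^ ((m : ℝ) * (d - ε))) + 1) * (B ^ (k + m))⁻¹) =
      C * ((l / c) * B ^ (-(ε * m)) + B ^ ((d - 2 * ε) * m - k)) := by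
    rw [e1, e2, ← a1, ← a2]
    ring
  rw [e3]
  have hmj : (0 : ℝ) ≤ m := Nat.cast_nonneg _
  have e4 : B ^ ((d - 2 * ε) * m - k) ≤ B ^ (-(ε * m)) := by
    apply Real.rpow_le_rpow_of_exponent_le hB1.le
    nlinarith [mul_nonneg hε.le hmj]
  have e5 : B ^ (-(ε * m)) ≤ ((B ^ ε) ^ q)⁻¹ * ((B ^ ε)⁻¹) ^ j := by
    rw [inv_pow, ← mul_inv, ← pow_add, ← Real.rpow_natCast, ← Real.rpow_mul hB0.le,
      ← Real.rpow_neg hB0.le]
    apply Real.rpow_le_rpow_of_exponent_le hB1.le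
    have : ((q + j : ℕ) : ℝ) ≤ m := by exact_mod_cast hq
    nlinarith
  have hlc : 0 ≤ l / c := by positivity
  calc C * ((l / c) * B ^ (-(ε * m)) + B ^ ((d - 2 * ε) * m - k))
      ≤ C * ((l / c) * B ^ (-(ε * m)) + B ^ (-(ε * m))) := by gcongr
    _ = C * (l / c + 1) * B ^ (-(ε * m)) := by ring
    _ ≤ C * (l / c + 1) * (((B ^ ε) ^ q)⁻¹ * ((B ^ ε)⁻¹) ^ j) :=
        mul_le_mul_of_nonneg_left e5 (by positivity)
    _ = C * (l / c + 1) * ((B ^ ε) ^ q)⁻¹ * ((B ^ ε)⁻¹) ^ j := by ring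

theorem stepI_bound {B ε h lam Q : ℝ} {d : ℝ} (hB1 : 1 < B) (hh : 0 ≤ h)
    (hlam : lam = (d + 1) - d * h - 3 * ε) {k m : ℝ} (hF2 : k ≤ d * (m + 1))
    (hQ : Q * B ^ (h * d) ≤ B ^ (ε * m)) :
    Q * B ^ (lam * (k + m)) ≤ B ^ (((d + 1) - 2 * ε) * m - h * k) * B ^ (lam * k) := by
  have hB0 : 0 < B := by linarith
  have h3 : Q ≤ B ^ (ε * m - h * d) := by
    rw [Real.rpow_sub hB0, le_div_iff₀ (by positivity)]
    exact hQ
  calc Q * B ^ (lam * (k + m)) ≤ B ^ (ε * m - h * d) * B ^ (lam * (k + m)) :=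
        mul_le_mul_of_nonneg_right h3 (by positivity)
    _ = B ^ (ε * m - h * d + lam * (k + m)) := by rw [← Real.rpow_add hB0]
    _ ≤ B ^ (((d + 1) - 2 * ε) * m - h * k + lam * k) := by
        apply Real.rpow_le_rpow_of_exponent_le hB1.le
        have h4 := mul_le_mul_of_nonneg_left hF2 hh
        rw [hlam]
        nlinarith
    _ = _ := by rw [← Real.rpow_add hB0]

theorem stepII_bound {B ε h lam t ρ : ℝ} {d : ℕ} (hB1 : 1 < B) (hε : 0 < ε)
    (ht : 0 < t) (htn1 : t ≤ d + 1) (hC2 : t * ((d + 1) + h + 3 * ε) ≤ (d + 1) * lam) {k m : ℕ}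
    (hF3 : (m : ℝ) ≤ k) (h4 : (4 : ℝ) ^ (d + 1) ≤ B ^ (ε * m)) (hρ0 : 0 < ρ)
    (hlt : B ^ (lam * k) * ρ ^ t < 1) :
    (4 * ρ * B ^ (k + m)) ^ (d + 1) ≤ B ^ (((d + 1) - 2 * ε) * m - h * k) *
      (B ^ (lam * k) * ρ ^ t) := by
  have hB0 : 0 < B := by linarith
  set L := Real.log B with hL
  have hL0 : 0 < L := Real.log_pos hB1
  set u := Real.log ρ with hu
  have e1 : B ^ (lam * k) * ρ ^ t = Real.exp (lam * k * L + t * u) := by
    rw [Real.exp_add, Real.rpow_def_of_pos hB0, Real.rpow_def_of_pos hρ0]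
    congr 2 <;> ring
  have h1 : lam * k * L + t * u < 0 := by
    rw [e1] at hlt
    exact Real.exp_lt_one_iff.1 hlt
  have e2 : B ^ (((d + 1) - 2 * ε) * m - h * k) =
      Real.exp ((((d + 1) - 2 * ε) * m - h * k) * L) := by
    rw [Real.rpow_def_of_pos hB0]
    congr 1
    ring
  have a1 : ρ * B ^ (k + m) = Real.exp (u + (k + m) * L) := by
    rw [Real.exp_add, hu, Real.exp_log hρ0, ← Real.rpow_natCast, Real.rpow_def_of_pos hB0]
    push_cast
    congr 2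
    ring
  have e3 : (4 * ρ * B ^ (k + m)) ^ (d + 1) =
      4 ^ (d + 1) * Real.exp ((d + 1) * (u + (k + m) * L)) := by
    rw [mul_assoc, a1, mul_pow, ← Real.exp_nat_mul]
    push_cast
    ring_nf
  have h5 : (4 : ℝ) ^ (d + 1) ≤ Real.exp (ε * m * L) := by
    have a1 : B ^ (ε * m) = Real.exp (ε * m * L) := by
      rw [Real.rpow_def_of_pos hB0]
      congr 1
      ring
    rw [← a1]
    exact h4
  rw [e1, e2, e3, ← Real.exp_add]
  calc (4 : ℝ) ^ (d + 1) * Real.exp ((d + 1) * (u + (k + m) * L))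
      ≤ Real.exp (ε * m * L) * Real.exp ((d + 1) * (u + (k + m) * L)) :=
        mul_le_mul_of_nonneg_right h5 (Real.exp_pos _).le
    _ = Real.exp (ε * m * L + (d + 1) * (u + (k + m) * L)) := by rw [← Real.exp_add]
    _ ≤ _ := by
        apply Real.exp_le_exp.2
        have hlvn : (0 : ℝ) ≤ k := Nat.cast_nonneg _
        have hmn : (0 : ℝ) ≤ m := Nat.cast_nonneg _
        have hd0 : (0 : ℝ) ≤ d := Nat.cast_nonneg _
        have h5 : (d + 1 - t) * (t * u) ≤ (d + 1 - t) * (-(lam * k * L)) :=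
          mul_le_mul_of_nonneg_left (by linarith) (by linarith)
        have h6 : t * ((d + 1) + h + 3 * ε) * (k * L) ≤ (d + 1) * lam * (k * L) :=
          mul_le_mul_of_nonneg_right hC2 (by positivity)
        have h7 : t * (ε * (m * L)) ≤ t * (ε * (k * L)) := by
          gcongr
        have h8 : t * (ε * m * L + (d + 1) * (u + (k + m) * L)) ≤
            t * ((((d + 1) - 2 * ε) * m - h * k) * L + (lam * k * L + t * u)) := by
          linarith [h5, h6, h7]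
        exact le_of_mul_le_mul_left h8 ht

end Pool.Agent.V7H68.Kak
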