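import Pool.Agent.V7H68.Kak.Ae

/-!
# Sets with few zooms which contain a segment in a generic direction
-/

set_option autoImplicit false

namespace Pool.Agent.V7H68.Kak

open MeasureTheory Set Filter Topology
open scoped ENNReal

/-- The number of zooms of level `k` is at most `C b^(h k)`. -/
def Growth {n : ℕ} (b : ℕ) (K : Set (E n)) (h C : ℝ) : Prop :=
  ∀ k : ℕ, (zooms b K k).Finite ∧ ((zooms b K k).ncard : ℝ) ≤ C * (b : ℝ) ^ (h * k)

theorem dir_zero {d : ℕ} (β : Fin d → ℝ) : (dir β) 0 = 1 := by simp [dir]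

theorem le_dimH_growth {d : ℕ} (hd : 1 ≤ d) {β : Fin d → ℝ} (hβ : Slow (dir β)) {b : ℕ}
    (hb : 2 ≤ b) {K : Set (E (d + 1))} (hK : IsClosed K) {h C : ℝ} (hh : 0 ≤ h)
    (hM : Growth b K h C) (x : E (d + 1)) {l : ℝ} (hl : 0 < l)
    (hseg : ∀ s ∈ Icc (0:ℝ) l, x + s • dir β ∈ K) :
    ENNReal.ofReal ((d + 1) * ((d + 1) - d * h) / ((d + 1) + h)) ≤ dimH K := by
  by_contra hcon
  rw [not_le, ENNReal.lt_iff_exists_real_btwn] at hcon
  obtain ⟨r, hr0, h1, h2⟩ := hcon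
  have hrpos : 0 < r := by
    by_contra hneg
    have : r = 0 := le_antisymm (not_lt.1 hneg) hr0
    rw [this] at h1
    simp at h1
  have hlt : r < (d + 1) * ((d + 1) - d * h) / ((d + 1) + h) := by
    by_contra hneg
    exact absurd (ENNReal.ofReal_le_ofReal (not_lt.1 hneg)) (not_le.2 h2)
  rw [lt_div_iff₀ (by positivity)] at hlt
  have h3 := le_dimH_slow hd hb hK hh hM x (dir β) (dir_zero β) hβ hl hseg hrpos hlt
  exact absurd h3 (not_le.2 h1)

theorem kakeya_segment {n : ℕ} {K : Set (E n)} (hK : IsKakeya K) {e : E n} (he : e ≠ 0) :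
    ∃ (x : E n) (l : ℝ), 0 < l ∧ ∀ s ∈ Icc (0:ℝ) l, x + s • e ∈ K := by
  have hn : 0 < ‖e‖ := norm_pos_iff.2 he
  obtain ⟨a, ha⟩ := hK.2 (‖e‖⁻¹ • e) (by
    rw [norm_smul, norm_inv, norm_norm, inv_mul_cancel₀ hn.ne'])
  refine ⟨a, ‖e‖⁻¹, by positivity, ?_⟩
  rintro s ⟨hs0, hs1⟩
  have h1 := ha (s * ‖e‖) (by positivity) (by
    calc s * ‖e‖ ≤ ‖e‖⁻¹ * ‖e‖ := mul_le_mul_of_nonneg_right hs1 hn.le
      _ = 1 := inv_mul_cancel₀ hn.ne')
  rw [smul_smul, mul_assoc, mul_inv_cancel₀ hn.ne', mul_one] at h1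
  exact h1

theorem dir_ne {d : ℕ} (β : Fin d → ℝ) : dir β ≠ 0 := by
  intro h
  have h1 := dir_zero β
  rw [h] at h1
  simp at h1

theorem kakeya_growth {d : ℕ} (hd : 1 ≤ d) {b : ℕ} (hb : 2 ≤ b) {K : Set (E (d + 1))}
    (hK : IsKakeya K) {h C : ℝ} (hh : 0 ≤ h) (hM : Growth b K h C) :
    ENNReal.ofReal ((d + 1) * ((d + 1) - d * h) / ((d + 1) + h)) ≤ dimH K := by
  obtain ⟨β, hβ⟩ := (ae_slow hd).exists
  obtain ⟨x, l, hl, hseg⟩ := kakeya_segment hK (dir_ne β)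
  exact le_dimH_growth hd hβ hb hK.1.isClosed hh hM x hl hseg

theorem kakeya_subexp {d : ℕ} (hd : 1 ≤ d) {b : ℕ} (hb : 2 ≤ b) {K : Set (E (d + 1))}
    (hK : IsKakeya K) (hM : ∀ h : ℝ, 0 < h → ∃ C, Growth b K h C) :
    dimH K = ((d + 1 : ℕ) : ℝ≥0∞) := by
  apply le_antisymm
  · calc dimH K ≤ dimH (univ : Set (E (d + 1))) := dimH_mono (subset_univ _)
      _ = ((d + 1 : ℕ) : ℝ≥0∞) := by
          rw [Real.dimH_univ_eq_finrank]
          simp
  · by_contra hcon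
    rw [not_le, ENNReal.lt_iff_exists_real_btwn] at hcon
    obtain ⟨r, hr0, h1, h2⟩ := hcon
    have hd0 : (1 : ℝ) ≤ d := by exact_mod_cast hd
    have hlt : r < d + 1 := by
      by_contra hneg
      have h3 := ENNReal.ofReal_le_ofReal (not_lt.1 hneg)
      have h4 : ENNReal.ofReal ((d : ℝ) + 1) = ((d + 1 : ℕ) : ℝ≥0∞) := by
        rw [← ENNReal.ofReal_natCast]
        push_cast
        rfl
      rw [h4] at h3
      exact absurd h3 (not_le.2 h2)
    set h : ℝ := (d + 1) * ((d + 1) - r) / (2 * (r + (d + 1) * d)) with hh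
    have hpos : 0 < r + (d + 1) * d := by positivity
    have hh0 : 0 < h := by
      rw [hh]
      apply div_pos (mul_pos (by positivity) (by linarith)) (by positivity)
    obtain ⟨C, hC⟩ := hM h hh0
    have h3 := kakeya_growth hd hb hK hh0.le hC
    have h4 : r ≤ (d + 1) * ((d + 1) - d * h) / ((d + 1) + h) := by
      rw [le_div_iff₀ (by positivity)]
      have h5 : h * (r + (d + 1) * d) = (d + 1) * ((d + 1) - r) / 2 := by
        rw [hh]
        field_simp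
      nlinarith
    exact absurd ((ENNReal.ofReal_le_ofReal h4).trans h3) (not_le.2 h1)

end Pool.Agent.V7H68.Kak
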