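import Pool.Agent.V7H68.Kak.Final

/-!
# MP_b1773a: Kakeya sets of low complexity have full Hausdorff dimension

The zooms of level `k` of a set `K ⊆ ℝ^n` in base `b` are the sets `(b^k K - z) ∩ [0,1)^n`, `z ∈ ℤ^n`:
they are what one sees of `K` in the `b`-adic cubes of side `b^(-k)`.  Let `n = d + 1 ≥ 2`.

1. Let `K` be closed with at most `C b^(h k)` different zooms of level `k`, for all `k`.  If `K` contains
   a segment (of any length) parallel to `(1, β)`, where `β` is outside a null set of `ℝ^(n-1)` which
   does not depend on `K`, then `dim_H K ≥ n (n - (n-1) h) / (n + h) ≥ n - n h`.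
2. Every Kakeya set with at most `C b^(h k)` zooms of level `k` satisfies the same inequality, and if
   the number of its zooms of level `k` grows more slowly than `b^(h k)` for every `h > 0`, then its
   Hausdorff dimension is `n`.

Nothing else is assumed.  In particular a counterexample to the Kakeya conjecture has, in every base,
exponentially many different zooms.

Proof.  Levels `k_0 < k_1 < ...` with `k_(i+1) = k_i + m_i`, `m_i` about `k_i / (n-1)`.  Enlarged by `b^k_i`
the segment is so long that it visits each of the `b^(n m_i)` subcubes of the unit cube modulo `ℤ^n`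
for about the same time.  All cells of one type (with the same zoom) have the same subcells; so the types
with few subcells account for little of the time, and this remains true for the subcells which are
again rich, and so on for all finer levels: most of the time is spent in rich cells.  A cell which is
rich for all levels gives the dimension.
-/

set_option autoImplicit false

namespace Pool.Agent.Results.MP_b1773a_an.LowComplexityH68

open MeasureTheory Set
open Pool.Agent.V7H68.Kak

theorem result (d : ℕ) (hd : 1 ≤ d) :
    (∀ᵐ β : Fin d → ℝ, ∀ (b : ℕ) (K : Set (E (d + 1))) (h C : ℝ), 2 ≤ b → IsClosed K → 0 ≤ h →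
      Growth b K h C → ∀ (x : E (d + 1)) (l : ℝ), 0 < l →
        (∀ s ∈ Icc (0:ℝ) l, x + s • dir β ∈ K) →
        ENNReal.ofReal ((d + 1) * ((d + 1) - d * h) / ((d + 1) + h)) ≤ dimH K) ∧
    (∀ (b : ℕ) (K : Set (E (d + 1))), 2 ≤ b → IsKakeya K →
      (∀ h C : ℝ, 0 ≤ h → Growth b K h C →
        ENNReal.ofReal ((d + 1) * ((d + 1) - d * h) / ((d + 1) + h)) ≤ dimH K) ∧
      ((∀ h : ℝ, 0 < h → ∃ C : ℝ, Growth b K h C) → dimH K = (d + 1 : ℕ))) := by
  refine ⟨?_, fun b K hb hK => ⟨fun h C hh hM => kakeya_growth hd hb hK hh hM,
    fun hM => kakeya_subexp hd hb hK hM⟩⟩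
  filter_upwards [ae_slow hd] with β hβ
  intro b K h C hb hK hh hM x l hl hseg
  exact le_dimH_growth hd hβ hb hK hh hM x hl hseg

end Pool.Agent.Results.MP_b1773a_an.LowComplexityH68
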