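import Pool.Agent.V7H68.Kak.Dim
import Pool.Agent.V7H68.Kak.Expo

/-!
# The choice of the levels and of the thresholds
-/

set_option autoImplicit false

namespace Pool.Agent.V7H68.Kak

open MeasureTheory Set Filter Topology
open scoped ENNReal

/-- The returns of the line with direction `e` to the lattice points are as slow as for almost all
directions: if the point with parameter `s` is at distance less than `δ` from a nonzero integer
vector then `|s|` is at least `δ^(-(n-1)+ε)` up to a constant. -/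
def Slow {n : ℕ} (e : E n) : Prop :=
  ∀ ε : ℝ, 0 < ε → ε < 1 → ∃ c : ℝ, 0 < c ∧ ∀ δ : ℝ, 0 < δ → δ ≤ 1 / 2 → ∀ h : Fin n → ℤ, h ≠ 0 →
    ∀ s : ℝ, (∀ i, |(h i : ℝ) - s * e i| < δ) → c * (δ⁻¹) ^ ((n : ℝ) - 1 - ε) ≤ |s|

/-- The levels: `lv (i+1) = lv i + lv i / d`. -/
def lvl (d q : ℕ) : ℕ → ℕ
  | 0 => d * q
  | i + 1 => lvl d q i + lvl d q i / d

theorem lvl_mono (d q : ℕ) : Monotone (lvl d q) :=
  monotone_nat_of_le_succ fun i => by simp [lvl]

theorem le_lvl_div {d q : ℕ} (hd : 1 ≤ d) (hq : d ≤ q) (i : ℕ) : q + i ≤ lvl d q i / d := by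
  have h : d * (q + i) ≤ lvl d q i := by
    induction i with
    | zero => simp [lvl]
    | succ i ih =>
      have h1 : q + i ≤ lvl d q i / d := by
        rw [Nat.le_div_iff_mul_le (by omega)]
        linarith [mul_comm d (q + i)]
      simp only [lvl]
      nlinarith
  rw [Nat.le_div_iff_mul_le (by omega)]
  linarith [mul_comm d (q + i)]

theorem lvl_tendsto {d q : ℕ} (hd : 1 ≤ d) (hq : d ≤ q) : Tendsto (lvl d q) atTop atTop := by
  apply tendsto_atTop_mono (f := fun i => i) _ tendsto_id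
  intro i
  have h1 := le_lvl_div hd hq i
  have h2 : lvl d q i / d ≤ lvl d q i := Nat.div_le_self _ _
  omega

/-- **The main inequality**, for a line with slow returns. -/
theorem le_dimH_slow {d : ℕ} (hd : 1 ≤ d) {b : ℕ} (hb : 2 ≤ b) {K : Set (E (d + 1))}
    (hK : IsClosed K) {h C : ℝ} (hh : 0 ≤ h)
    (hM : ∀ k, (zooms b K k).Finite ∧ ((zooms b K k).ncard : ℝ) ≤ C * (b : ℝ) ^ (h * k))
    (x e : E (d + 1)) {i₀ : Fin (d + 1)} (he : e i₀ = 1) (hslow : Slow e) {l : ℝ} (hl : 0 < l)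
    (hseg : ∀ s ∈ Icc (0:ℝ) l, x + s • e ∈ K) {t : ℝ} (ht : 0 < t)
    (htn : t * ((d + 1) + h) < (d + 1) * ((d + 1) - d * h)) :
    ENNReal.ofReal t ≤ dimH K := by
  have hd' : (1 : ℝ) ≤ d := by exact_mod_cast hd
  set B : ℝ := (b : ℝ) with hB
  have hB1 : 1 < B := by rw [hB]; exact_mod_cast (by omega : 1 < b)
  have hB0 : 0 < B := by linarith
  set g : ℝ := (d + 1) * ((d + 1) - d * h) - t * ((d + 1) + h) with hg
  have hg0 : 0 < g := by rw [hg]; linarith
  set ε : ℝ := min (g / (3 * t + 3 * (d + 1))) (1 / 2) with hε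
  have hε0 : 0 < ε := lt_min (by positivity) (by norm_num)
  have hε1 : ε < 1 := lt_of_le_of_lt (min_le_right _ _) (by norm_num)
  have hεg : ε * (3 * t + 3 * (d + 1)) ≤ g := by
    have := min_le_left (g / (3 * t + 3 * (d + 1))) (1 / 2)
    rw [← hε, le_div_iff₀ (by positivity)] at this
    exact this
  set lam : ℝ := (d + 1) - d * h - 3 * ε with hlam
  -- the two consequences for the exponents
  have hC2 : t * ((d + 1) + h + 3 * ε) ≤ (d + 1) * lam := by
    rw [hlam]; nlinarith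
  have hlamt : t ≤ lam := by
    nlinarith [mul_nonneg ht.le hh, mul_nonneg ht.le hε0.le]
  have hlam0 : 0 < lam := lt_of_lt_of_le ht hlamt
  have htn1 : t ≤ d + 1 := by
    have : lam ≤ d + 1 := by rw [hlam]; nlinarith
    linarith
  obtain ⟨c, hc0, hc⟩ := hslow ε hε0 hε1
  have hCnn : 0 ≤ C := by
    have := (Nat.cast_nonneg _).trans (hM 0).2
    simpa using this
  -- choice of q
  set D : ℝ := C * (l / c + 1) with hD
  have hD0 : 0 ≤ D := by positivity
  have hBε : 1 < B ^ ε := Real.one_lt_rpow hB1 hε0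
  have hlimq : Tendsto (fun q : ℕ => (B ^ ε) ^ q) atTop atTop := tendsto_pow_atTop_atTop_of_one_lt hBε
  obtain ⟨q, hq1, hq2, hq3, hqd⟩ : ∃ q : ℕ, 4 ^ (d + 1) * B ^ (h * d) ≤ (B ^ ε) ^ q ∧
      4 ^ (d + 1) ≤ (B ^ ε) ^ q ∧ D * (1 - (B ^ ε)⁻¹)⁻¹ / l < (B ^ ε) ^ q ∧ d ≤ q := by
    have e1 := hlimq.eventually_ge_atTop (4 ^ (d + 1) * B ^ (h * d))
    have e2 := hlimq.eventually_ge_atTop (4 ^ (d + 1))
    have e3 := hlimq.eventually_gt_atTop (D * (1 - (B ^ ε)⁻¹)⁻¹ / l)
    have e4 := eventually_ge_atTop d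
    obtain ⟨q, h1, h2, h3, h4⟩ := (e1.and (e2.and (e3.and e4))).exists
    exact ⟨q, h1, h2, h3, h4⟩
  set lv : ℕ → ℕ := lvl d q with hlv
  set m : ℕ → ℕ := fun i => lv i / d with hm
  have hstep : ∀ i, lv (i + 1) = lv i + m i := fun i => rfl
  have hsubm : ∀ i, lv (i + 1) - lv i = m i := fun i => by rw [hstep]; omega
  have hmq : ∀ i, q + i ≤ m i := fun i => le_lvl_div hd hqd i
  have hF1 : ∀ i, (d : ℝ) * m i ≤ lv i := by
    intro i
    have : d * (lv i / d) ≤ lv i := Nat.mul_div_le _ _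
    exact_mod_cast this
  have hF2 : ∀ i, (lv i : ℝ) ≤ d * (m i + 1) := by
    intro i
    have : lv i < d * (lv i / d + 1) := Nat.lt_mul_div_succ _ (by omega)
    have h2 : ((lv i : ℕ) : ℝ) < ((d * (lv i / d + 1) : ℕ) : ℝ) := by exact_mod_cast this
    push_cast at h2
    exact h2.le
  have hF3 : ∀ i, (m i : ℝ) ≤ lv i := by
    intro i
    exact_mod_cast Nat.div_le_self _ _
  have hqm : ∀ i, (q : ℝ) ≤ m i := fun i => by
    have := hmq i
    exact_mod_cast (by omega : q ≤ m i)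
  have hm1 : ∀ i, 1 ≤ m i := fun i => by have := hmq i; omega
  set T : ℕ → ℝ := fun i => B ^ (((d + 1) - 2 * ε) * m i - h * lv i) with hT
  set P : ℕ → ℝ := fun i => B ^ (lam * lv i) with hP
  set M : ℕ → ℝ := fun i => C * B ^ (h * lv i) with hMd
  set R : ℕ → ℝ := fun i => c * B ^ ((m i : ℝ) * (d - ε)) with hR
  set A : ℕ → ℝ := fun i => (l * B ^ (lv i) / R i + 1) * (B ^ (lv i + m i))⁻¹ with hA
  have hR0 : ∀ i, 0 < R i := fun i => by rw [hR]; positivity
  have hεq : ∀ i, (B ^ ε) ^ q ≤ B ^ (ε * m i) := by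
    intro i
    rw [← Real.rpow_natCast, ← Real.rpow_mul hB0.le]
    apply Real.rpow_le_rpow_of_exponent_le hB1.le
    exact mul_le_mul_of_nonneg_left (hqm i) hε0.le
  apply le_dimH_abstract hb hK (lvl_mono d q) (lvl_tendsto hd hqd) (T := T) (P := P) (M := M)
    (A := A) ht x e hl (fun i => (hM _).1) hseg
  · intro i
    exact (hM _).2
  · intro i
    rw [hA]
    have := hR0 i
    positivity
  · intro i
    rw [hT]
    positivity
  · intro i w
    have h1 := volume_V hb (lv i) (m i) x e l (R i) hl (hR0 i) w he (fun h' hh' s hs => by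
      have h2 := hc ((B ^ (m i))⁻¹) (by positivity) (by
        have h3 : (2 : ℝ) ≤ B ^ (m i) := by
          calc (2 : ℝ) ≤ B := by rw [hB]; exact_mod_cast hb
            _ = B ^ 1 := (pow_one _).symm
            _ ≤ B ^ (m i) := pow_le_pow_right₀ hB1.le (hm1 i)
        rw [one_div]
        exact inv_anti₀ (by norm_num) h3) h' hh' s hs
      refine le_trans (le_of_eq ?_) h2
      rw [hR, inv_inv]
      simp only
      congr 1
      rw [← Real.rpow_natCast, ← Real.rpow_mul hB0.le]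
      congr 1
      push_cast
      ring)
    rw [← hlv, hsubm]
    exact h1
  · intro r
    have hterm : ∀ j, M j * T j * A j ≤ D * ((B ^ ε) ^ q)⁻¹ * ((B ^ ε)⁻¹) ^ j := fun j =>
      term_bound hB1 hCnn hl hc0 hε0 (hF1 j) (hmq j)
    have hinv1 : (B ^ ε)⁻¹ < 1 := inv_lt_one_of_one_lt₀ hBε
    have hinv0 : 0 ≤ (B ^ ε)⁻¹ := by positivity
    have hgeo : ∑ j ∈ Finset.range r, ((B ^ ε)⁻¹) ^ j ≤ (1 - (B ^ ε)⁻¹)⁻¹ := by
      rw [← tsum_geometric_of_lt_one hinv0 hinv1]
      exact (summable_geometric_of_lt_one hinv0 hinv1).sum_le_tsum _ fun _ _ => by positivity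
    calc ∑ j ∈ Finset.range r, M j * T j * A j
        ≤ ∑ j ∈ Finset.range r, D * ((B ^ ε) ^ q)⁻¹ * ((B ^ ε)⁻¹) ^ j :=
          Finset.sum_le_sum fun j _ => hterm j
      _ = D * ((B ^ ε) ^ q)⁻¹ * ∑ j ∈ Finset.range r, ((B ^ ε)⁻¹) ^ j := by rw [Finset.mul_sum]
      _ ≤ D * ((B ^ ε) ^ q)⁻¹ * (1 - (B ^ ε)⁻¹)⁻¹ :=
          mul_le_mul_of_nonneg_left hgeo (by positivity)
      _ < l := by
          rw [div_lt_iff₀ hl] at hq3
          have hpos : 0 < (B ^ ε) ^ q := by positivity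
          rw [mul_right_comm, ← div_eq_mul_inv, div_lt_iff₀ hpos]
          linarith
  · intro i
    rw [hP]
    positivity
  · intro i ρ hρ
    have h1 : ((B ^ (lv i))⁻¹) ^ t ≤ ρ ^ t := Real.rpow_le_rpow (by positivity) hρ ht.le
    have h2 : P i * ((B ^ (lv i))⁻¹) ^ t = B ^ ((lam - t) * lv i) := by
      simp only [hP]
      rw [← Real.rpow_natCast, ← Real.rpow_neg hB0.le, ← Real.rpow_mul hB0.le,
        ← Real.rpow_add hB0]
      congr 1
      ring
    have h3 : 1 ≤ B ^ ((lam - t) * lv i) := by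
      apply Real.one_le_rpow hB1.le
      exact mul_nonneg (by linarith) (Nat.cast_nonneg _)
    calc (1:ℝ) ≤ B ^ ((lam - t) * lv i) := h3
      _ = P i * ((B ^ (lv i))⁻¹) ^ t := h2.symm
      _ ≤ P i * ρ ^ t := mul_le_mul_of_nonneg_left h1 (by rw [hP]; positivity)
  · intro i
    have h1 : 4 ^ (d + 1) * B ^ (h * d) ≤ B ^ (ε * m i) := hq1.trans (hεq i)
    have h2 := stepI_bound hB1 hh hlam (hF2 i) h1
    simp only [hP, hT, hstep]
    push_cast
    exact h2
  · intro i ρ hρ hlt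
    have hρ0 : 0 < ρ := lt_of_lt_of_le (by positivity) hρ
    exact stepII_bound hB1 hε0 ht htn1 hC2 (hF3 i) (hq2.trans (hεq i)) hρ0 hlt

end Pool.Agent.V7H68.Kak
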