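import Pool.Agent.V7H68.Kak.Defs

/-!
# Rich cells: the counting argument along one segment
-/

set_option autoImplicit false

namespace Pool.Agent.V7H68.Kak

open MeasureTheory Set Filter Topology
open scoped ENNReal

variable {n : ℕ}

/-- The zooms of level `k`. -/
def zooms (b : ℕ) (K : Set (E n)) (k : ℕ) : Set (Set (Fin n → ℝ)) :=
  {A | ∃ z, A = zoom b K k z}

/-- The index of the `b`-adic cube of level `k` which contains the point `p`. -/
noncomputable def cell (b k : ℕ) (p : E n) : Fin n → ℤ := fun i => ⌊(b : ℝ) ^ k * p i⌋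

/-- The words for the subcubes `m` levels below. -/
noncomputable def W (n b m : ℕ) : Finset (Fin n → ℤ) := Fintype.piFinset fun _ => Finset.Ico 0 ((b : ℤ) ^ m)

/-- The subcube with word `w`. -/
def sub (b m : ℕ) (z w : Fin n → ℤ) : Fin n → ℤ := fun i => (b : ℤ) ^ m * z i + w i

theorem mem_W {b m : ℕ} {w : Fin n → ℤ} : w ∈ W n b m ↔ ∀ i, 0 ≤ w i ∧ w i < (b : ℤ) ^ m := by
  simp [W]

theorem zoom_sub {b : ℕ} (hb : 2 ≤ b) (K : Set (E n)) (k m : ℕ) (z w : Fin n → ℤ)
    (hw : w ∈ W n b m) :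
    zoom b K (k + m) (sub b m z w) = {y | (∀ i, 0 ≤ y i ∧ y i < 1) ∧
      (fun i => ((w i : ℝ) + y i) / (b : ℝ) ^ m) ∈ zoom b K k z} := by
  have hbm : (0 : ℝ) < (b : ℝ) ^ m := by positivity
  have hbk : (0 : ℝ) < (b : ℝ) ^ k := by positivity
  rw [mem_W] at hw
  ext y
  simp only [zoom, mem_ofPred_eq]
  constructor
  · rintro ⟨h1, h2⟩
    refine ⟨h1, fun i => ⟨?_, ?_⟩, ?_⟩
    · have h3 : (0 : ℝ) ≤ w i := by exact_mod_cast (hw i).1
      have := (h1 i).1
      positivity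
    · rw [div_lt_one hbm]
      have h3 : (w i : ℝ) + 1 ≤ (b : ℝ) ^ m := by exact_mod_cast (hw i).2
      linarith [(h1 i).2]
    · convert h2 using 2
      funext i
      simp only [sub]
      rw [pow_add]
      push_cast
      field_simp
      ring
  · rintro ⟨h1, -, h2⟩
    refine ⟨h1, ?_⟩
    convert h2 using 2
    funext i
    simp only [sub]
    rw [pow_add]
    push_cast
    field_simp
    ring

open Classical in
/-- Rich cells. `G r i`: cells of level `lv i` with at least `T i` subcells of level `lv (i+1)` which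
are rich with `r - 1` steps left; `G 0 i`: nonempty cells. -/
noncomputable def G (b : ℕ) (K : Set (E n)) (lv : ℕ → ℕ) (T : ℕ → ℝ) : ℕ → ℕ → Set (Fin n → ℤ)
  | 0, i => {z | (zoom b K (lv i) z).Nonempty}
  | r + 1, i => {z | T i ≤ (((W n b (lv (i + 1) - lv i)).filter
      fun w => sub b (lv (i + 1) - lv i) z w ∈ G b K lv T r (i + 1)).card : ℝ)}

theorem G_congr {b : ℕ} (hb : 2 ≤ b) (K : Set (E n)) (lv : ℕ → ℕ) (hlv : Monotone lv) (T : ℕ → ℝ)
    (r : ℕ) : ∀ (i : ℕ) (z z' : Fin n → ℤ), zoom b K (lv i) z = zoom b K (lv i) z' →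
      (z ∈ G b K lv T r i ↔ z' ∈ G b K lv T r i) := by
  classical
  induction r with
  | zero =>
    intro i z z' h
    simp only [G, mem_ofPred_eq, h]
  | succ r ih =>
    intro i z z' h
    simp only [G, mem_ofPred_eq]
    have hl : lv i + (lv (i + 1) - lv i) = lv (i + 1) := by
      have := hlv (Nat.le_succ i)
      simp only [Nat.succ_eq_add_one] at this
      omega
    have h1 : (W n b (lv (i + 1) - lv i)).filter
        (fun w => sub b (lv (i + 1) - lv i) z w ∈ G b K lv T r (i + 1)) =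
        (W n b (lv (i + 1) - lv i)).filter
        (fun w => sub b (lv (i + 1) - lv i) z' w ∈ G b K lv T r (i + 1)) := by
      apply Finset.filter_congr
      intro w hw
      apply ih
      have h2 := zoom_sub hb K (lv i) (lv (i + 1) - lv i) z w hw
      have h3 := zoom_sub hb K (lv i) (lv (i + 1) - lv i) z' w hw
      rw [hl] at h2 h3
      rw [h2, h3, h]
    rw [h1]

/-- The set of times at which the segment is in a subcube with word `w`. -/
def V (b k m : ℕ) (x e : E n) (l : ℝ) (w : Fin n → ℤ) : Set ℝ :=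
  {t | t ∈ Icc 0 l ∧ cell b (k + m) (x + t • e) = sub b m (cell b k (x + t • e)) w}

theorem V_close {b : ℕ} (hb : 2 ≤ b) (k m : ℕ) (x e : E n) (l R : ℝ) (w : Fin n → ℤ)
    {i₀ : Fin n} (he : e i₀ = 1)
    (hR : ∀ h : Fin n → ℤ, h ≠ 0 → ∀ s : ℝ, (∀ i, |(h i : ℝ) - s * e i| < ((b : ℝ) ^ m)⁻¹) → R ≤ |s|)
    {t t' : ℝ} (ht : t ∈ V b k m x e l w) (ht' : t' ∈ V b k m x e l w)
    (hd : |t - t'| < R / (b : ℝ) ^ k) : |t - t'| ≤ ((b : ℝ) ^ (k + m))⁻¹ := by
  have hbm : (0 : ℝ) < (b : ℝ) ^ m := by positivity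
  have hbk : (0 : ℝ) < (b : ℝ) ^ k := by positivity
  set z := cell b k (x + t • e) with hz
  set z' := cell b k (x + t' • e) with hz'
  have key : ∀ i, |((z i - z' i : ℤ) : ℝ) - ((b : ℝ) ^ k * (t - t')) * e i| < ((b : ℝ) ^ m)⁻¹ := by
    intro i
    have h1 := congrFun ht.2 i
    have h2 := congrFun ht'.2 i
    rw [← hz] at h1
    rw [← hz'] at h2
    simp only [cell, sub] at h1 h2
    rw [Int.floor_eq_iff] at h1 h2
    obtain ⟨h1a, h1b⟩ := h1
    obtain ⟨h2a, h2b⟩ := h2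
    simp only [PiLp.add_apply, PiLp.smul_apply, smul_eq_mul] at h1a h1b h2a h2b
    push_cast at h1a h1b h2a h2b ⊢
    rw [pow_add] at h1a h1b h2a h2b
    rw [abs_lt]
    constructor
    · rw [neg_lt, inv_eq_one_div, lt_div_iff₀ hbm]
      nlinarith
    · rw [inv_eq_one_div, lt_div_iff₀ hbm]
      nlinarith
  by_cases hzz : z = z'
  · have h1 := key i₀
    rw [hzz, he] at h1
    simp only [sub_self, Int.cast_zero, zero_sub, mul_one, abs_neg, abs_mul,
      abs_of_pos hbk] at h1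
    rw [pow_add, mul_inv, inv_mul_eq_div, le_div_iff₀ (by positivity)] at *
    nlinarith
  · exfalso
    have h1 := hR (fun i => z i - z' i) (fun h => hzz (by
      funext i
      have := congrFun h i
      simp only [Pi.zero_apply] at this
      omega)) ((b : ℝ) ^ k * (t - t')) key
    rw [abs_mul, abs_of_pos hbk] at h1
    rw [lt_div_iff₀ hbk] at hd
    nlinarith

theorem volume_V {b : ℕ} (hb : 2 ≤ b) (k m : ℕ) (x e : E n) (l R : ℝ) (hl : 0 < l) (hR0 : 0 < R)
    (w : Fin n → ℤ) {i₀ : Fin n} (he : e i₀ = 1)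
    (hR : ∀ h : Fin n → ℤ, h ≠ 0 → ∀ s : ℝ, (∀ i, |(h i : ℝ) - s * e i| < ((b : ℝ) ^ m)⁻¹) → R ≤ |s|) :
    volume (V b k m x e l w) ≤ ENNReal.ofReal ((l * (b : ℝ) ^ k / R + 1) * ((b : ℝ) ^ (k + m))⁻¹) := by
  have hbk : (0 : ℝ) < (b : ℝ) ^ k := by positivity
  set ρ : ℝ := R / (b : ℝ) ^ k with hρ
  have hρ0 : 0 < ρ := by positivity
  set N : ℕ := ⌊l / ρ⌋₊ + 1 with hN
  have hsub : V b k m x e l w ⊆ ⋃ j ∈ Finset.range N,
      (V b k m x e l w ∩ Ico (j * ρ) ((j + 1) * ρ)) := by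
    intro t ht
    simp only [mem_iUnion, Finset.mem_range, mem_inter_iff, mem_Ico, exists_prop]
    have h0 := ht.1.1
    have h1 := ht.1.2
    refine ⟨⌊t / ρ⌋₊, ?_, ht, ?_, ?_⟩
    · rw [hN]
      have := Nat.floor_le_floor (div_le_div_of_nonneg_right h1 hρ0.le)
      omega
    · have := Nat.floor_le (div_nonneg h0 hρ0.le)
      rw [le_div_iff₀ hρ0] at this
      exact this
    · have := Nat.lt_floor_add_one (t / ρ)
      rw [div_lt_iff₀ hρ0] at this
      exact this
  have hpiece : ∀ j : ℕ, volume (V b k m x e l w ∩ Ico (j * ρ) ((j + 1) * ρ)) ≤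
      ENNReal.ofReal (((b : ℝ) ^ (k + m))⁻¹) := by
    intro j
    refine (Real.volume_le_diam _).trans ?_
    apply Metric.ediam_le
    rintro t ⟨ht, ht2⟩ t' ⟨ht', ht2'⟩
    rw [edist_dist, Real.dist_eq]
    apply ENNReal.ofReal_le_ofReal
    apply V_close hb k m x e l R w he hR ht ht'
    rw [← hρ, abs_lt]
    constructor <;> nlinarith [ht2.1, ht2.2, ht2'.1, ht2'.2]
  calc volume (V b k m x e l w)
      ≤ volume (⋃ j ∈ Finset.range N, (V b k m x e l w ∩ Ico (j * ρ) ((j + 1) * ρ))) :=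
        measure_mono hsub
    _ ≤ ∑ j ∈ Finset.range N, volume (V b k m x e l w ∩ Ico (j * ρ) ((j + 1) * ρ)) :=
        measure_biUnion_finset_le _ _
    _ ≤ ∑ j ∈ Finset.range N, ENNReal.ofReal (((b : ℝ) ^ (k + m))⁻¹) :=
        Finset.sum_le_sum fun j _ => hpiece j
    _ = ENNReal.ofReal (N * ((b : ℝ) ^ (k + m))⁻¹) := by
        rw [Finset.sum_const, Finset.card_range, nsmul_eq_mul,
          ENNReal.ofReal_mul (by positivity), ENNReal.ofReal_natCast]
    _ ≤ ENNReal.ofReal ((l * (b : ℝ) ^ k / R + 1) * ((b : ℝ) ^ (k + m))⁻¹) := by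
        apply ENNReal.ofReal_le_ofReal
        apply mul_le_mul_of_nonneg_right _ (by positivity)
        rw [hN]
        push_cast
        have h1 : (⌊l / ρ⌋₊ : ℝ) ≤ l / ρ := Nat.floor_le (by positivity)
        have h2 : l / ρ = l * (b : ℝ) ^ k / R := by
          rw [hρ]; field_simp
        linarith

end Pool.Agent.V7H68.Kak
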